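import Pool.Agent.K6.H33.PT.Rec
import Pool.Agent.K6.H33.NT.Asm
import Pool.Agent.K6.H33.PF.Fin

set_option autoImplicit false

/-! # The topological zeta function of products of powers of nested Pfaffians -/

namespace Pool.Agent.K6.H33.PT

open MvPolynomial Pool.Agent.W428.MOT Pool.Agent.TH192.DT Pool.Agent.TH192.MT
  Pool.Agent.TH192.MU Pool.Agent.K6.H33.NM Pool.Agent.K6.H33.NT
open Pool.Agent.K6.H33.PF (npf root_npf root_minors Close lpf sk)

theorem pf_hom {τ : Type} : ∀ (q : ℕ) (A : Matrix (Fin (2 * q)) (Fin (2 * q)) (MvPolynomial τ ℤ)),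
    (∀ i j, (A i j).IsHomogeneous 1) → (Pool.Agent.Helper929.pf (2 * q) A).IsHomogeneous q
  | 0, A, _ => by
    have h1 : Pool.Agent.Helper929.pf (2 * 0) A = 1 := rfl
    rw [h1]
    exact isHomogeneous_one _ _
  | q + 1, A, hA => by
    have h1 : ∀ B : Matrix (Fin (2 * (q + 1))) (Fin (2 * (q + 1))) (MvPolynomial τ ℤ),
        Pool.Agent.Helper929.pf (2 * (q + 1)) B = ∑ j : Fin (2 * q + 1), (-1) ^ (j : ℕ) *
          (show Matrix (Fin (2 * q + 2)) (Fin (2 * q + 2)) (MvPolynomial τ ℤ) from B) 0 j.succ *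
        Pool.Agent.Helper929.pf (2 * q) ((show Matrix (Fin (2 * q + 2)) (Fin (2 * q + 2))
          (MvPolynomial τ ℤ) from B).submatrix
          (fun k => (j.succAbove k).succ) (fun k => (j.succAbove k).succ)) := fun B => rfl
    rw [h1]
    refine IsHomogeneous.sum _ _ _ fun j _ => ?_
    have h2 := pf_hom q ((show Matrix (Fin (2 * q + 2)) (Fin (2 * q + 2))
          (MvPolynomial τ ℤ) from A).submatrix
          (fun k => (j.succAbove k).succ) (fun k => (j.succAbove k).succ)) fun i j => hA _ _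
    have h3 : ((-1 : MvPolynomial τ ℤ) ^ (j : ℕ)).IsHomogeneous 0 := by
      have h4 : ((-1 : MvPolynomial τ ℤ)).IsHomogeneous 0 := by
        have h5 : (-1 : MvPolynomial τ ℤ) = C (-1) := by simp
        rw [h5]
        exact isHomogeneous_C _ _
      simpa using h4.pow (j : ℕ)
    have h6 := (h3.mul (hA 0 j.succ)).mul h2
    have h7 : 0 + 1 + q = q + 1 := by ring
    rw [h7] at h6
    exact h6

theorem Gm_hom (n : ℕ) (t : Fin n) : (Gm n t).IsHomogeneous ((t : ℕ) + 1) := by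
  unfold Gm lpf
  refine pf_hom _ _ fun i j => ?_
  simp only [Matrix.of_apply]
  unfold sk
  split_ifs
  · exact isHomogeneous_X _ _
  · exact (isHomogeneous_X _ _).neg
  · exact isHomogeneous_zero _ _ _

theorem npf_hom {n : ℕ} (a : Fin n → ℕ) :
    (map (Int.castRingHom ℂ) (npf n a)).IsHomogeneous (∑ k : Fin n, ((k : ℕ) + 1) * a k) := by
  have h1 : (npf n a).IsHomogeneous (∑ k : Fin n, ((k : ℕ) + 1) * a k) :=
    IsHomogeneous.prod _ _ _ fun k _ => (Gm_hom n k).pow _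
  exact h1.map _

/-- **The topological zeta functions of the products of powers of nested Pfaffians.** -/
theorem top_npf (hPQ : S_PQ) (hLB : S_LB) {n : ℕ} (a : Fin n → ℕ) (ha : Close 2 a)
    {W : Set (Pt ℂ (Pr (2 * n)))} (hW : Constr W)
    {R : Type} [CommRing R] [IsDomain R] (E : MK ℂ →+* R) (ε : R →+* ℂ)
    (h1 : ε (E ((Lu ℂ : (MK ℂ)ˣ) : MK ℂ)) = 1) (hu : E ((Lu ℂ : (MK ℂ)ˣ) : MK ℂ) ≠ 1) :
    ∃ Z : RatFunc ℂ,
      IsTopZeta E ε (zetaM (map (Int.castRingHom ℂ) (npf n a)) W {c | c ≠ 0}) Z ∧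
      (∀ Z', IsTopZeta E ε (zetaM (map (Int.castRingHom ℂ) (npf n a)) W {c | c ≠ 0}) Z' →
        Z' = Z) ∧
      ∀ s₀ : ℂ, Z.denom.eval s₀ = 0 →
        (∃ k j : Fin n, k ≤ j ∧ 0 < a j ∧
          s₀ = -(2 * (((j : ℕ) : ℂ) - ((k : ℕ) : ℂ)) + 1) / ((∑ i ∈ Finset.Icc k j, a i : ℕ) : ℂ)) ∧
        ∀ b : Polynomial ℂ, Pool.Agent.H628R4.TP.IsLocalBFunction
          (map (Int.castRingHom ℂ) (npf n a)) b → b.eval s₀ = 0 := by
  have hJ := Pool.Agent.K6.H75.NT.pieceJ (fun t => Gm n (kp a t)) (fun t => a (kp a t))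
    (fun t => kp_pos a t) hW (Ds (kp a) fun t => a (kp a t))
    (fun M hL => rl_pfaffians hPQ pieceS hL (fun t => kp_pos a t) (kp a))
  rw [prod_kp a (Gm n)] at hJ
  have hN : (∏ k, Gm n k ^ a k) = npf n a := rfl
  rw [hN] at hJ
  obtain ⟨Z, hZ1, hZ2, hZ3⟩ := topZeta_main E ε h1 hu (D := Ds (kp a) fun t => a (kp a t)) (by
    rintro q ⟨r, l, ⟨t, ht⟩, rfl⟩
    refine ⟨by simp only; omega, ?_⟩
    simp only
    have h2 : 0 < ∑ t : Fin (nT a), if r ≤ (kp a t : ℕ) ∧ (kp a t : ℕ) - r < l + 1 then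
        a (kp a t) else 0 := by
      refine lt_of_lt_of_le ?_ (Finset.single_le_sum (f := fun t : Fin (nT a) =>
        if r ≤ (kp a t : ℕ) ∧ (kp a t : ℕ) - r < l + 1 then a (kp a t) else 0)
        (fun _ _ => Nat.zero_le _) (Finset.mem_univ t))
      rw [if_pos (by omega)]
      exact kp_pos a t
    exact_mod_cast h2) hJ
  refine ⟨Z, hZ1, hZ2, fun s₀ hs => ?_⟩
  obtain ⟨q, ⟨r, l, ⟨t, ht⟩, rfl⟩, rfl⟩ := hZ3 s₀ hs
  have hrm : r + l < n := by have := (kp a t).2; omega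
  have hpos : 0 < a ⟨r + l, hrm⟩ := by
    have h2 : kp a t = ⟨r + l, hrm⟩ := Fin.ext ht
    rw [← h2]
    exact kp_pos a t
  simp only
  rw [sum_Ds a r l hrm]
  refine ⟨⟨⟨r, by omega⟩, ⟨r + l, hrm⟩, by rw [Fin.le_def]; simp, hpos, ?_⟩, fun b hb => ?_⟩
  · push_cast
    ring
  · have h5 := root_npf a ha b (hLB _ _ (npf_hom a) b hb) r l (by omega) (by
      rw [ex_succ' a (r + l) hrm]
      omega)
    rw [sum_ex a r l hrm] at h5
    rw [← h5]
    congr 1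
    push_cast
    rfl

/-- **The topological zeta functions of the products of powers of nested minors**, with the weaker
condition on the exponents. -/
theorem top_minors (hPQ : S_PQ) (hLB : S_LB) {n : ℕ} (a : Fin n → ℕ) (ha : Close 1 a)
    {W : Set (Pt ℂ (Fin n × Fin n))} (hW : Constr W)
    {R : Type} [CommRing R] [IsDomain R] (E : MK ℂ →+* R) (ε : R →+* ℂ)
    (h1 : ε (E ((Lu ℂ : (MK ℂ)ˣ) : MK ℂ)) = 1) (hu : E ((Lu ℂ : (MK ℂ)ˣ) : MK ℂ) ≠ 1) :
    ∃ Z : RatFunc ℂ,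
      IsTopZeta E ε (zetaM (map (Int.castRingHom ℂ) (nested n a)) W {c | c ≠ 0}) Z ∧
      (∀ Z', IsTopZeta E ε (zetaM (map (Int.castRingHom ℂ) (nested n a)) W {c | c ≠ 0}) Z' →
        Z' = Z) ∧
      ∀ s₀ : ℂ, Z.denom.eval s₀ = 0 →
        (∃ k j : Fin n, k ≤ j ∧ 0 < a j ∧
          s₀ = -(((j : ℕ) : ℂ) - ((k : ℕ) : ℂ) + 1) / ((∑ i ∈ Finset.Icc k j, a i : ℕ) : ℂ)) ∧
        ∀ b : Polynomial ℂ, Pool.Agent.H628R4.TP.IsLocalBFunction
          (map (Int.castRingHom ℂ) (nested n a)) b → b.eval s₀ = 0 := by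
  have hJ := Pool.Agent.K6.H75.NT.pieceJ (fun t => NT.Gm n (kp a t)) (fun t => a (kp a t))
    (fun t => kp_pos a t) hW (NT.Ds (kp a) fun t => a (kp a t))
    (fun M hL => rl_minors hPQ pieceS hL (fun t => kp_pos a t) (kp a))
  rw [prod_kp a (NT.Gm n)] at hJ
  have hN : (∏ k, NT.Gm n k ^ a k) = nested n a := rfl
  rw [hN] at hJ
  obtain ⟨Z, hZ1, hZ2, hZ3⟩ := topZeta_main E ε h1 hu (D := NT.Ds (kp a) fun t => a (kp a t)) (by
    rintro q ⟨r, m, ⟨t, ht⟩, rfl⟩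
    refine ⟨by simp only; omega, ?_⟩
    simp only
    have h2 : 0 < ∑ t : Fin (nT a), if r ≤ (kp a t : ℕ) ∧ (kp a t : ℕ) - r < m + 1 then
        a (kp a t) else 0 := by
      refine lt_of_lt_of_le ?_ (Finset.single_le_sum (f := fun t : Fin (nT a) =>
        if r ≤ (kp a t : ℕ) ∧ (kp a t : ℕ) - r < m + 1 then a (kp a t) else 0)
        (fun _ _ => Nat.zero_le _) (Finset.mem_univ t))
      rw [if_pos (by omega)]
      exact kp_pos a t
    exact_mod_cast h2) hJ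
  refine ⟨Z, hZ1, hZ2, fun s₀ hs => ?_⟩
  obtain ⟨q, ⟨r, m, ⟨t, ht⟩, rfl⟩, rfl⟩ := hZ3 s₀ hs
  have hrm : r + m < n := by have := (kp a t).2; omega
  have hpos : 0 < a ⟨r + m, hrm⟩ := by
    have h2 : kp a t = ⟨r + m, hrm⟩ := Fin.ext ht
    rw [← h2]
    exact kp_pos a t
  simp only
  rw [sum_Ds a r m hrm]
  refine ⟨⟨⟨r, by omega⟩, ⟨r + m, hrm⟩, by rw [Fin.le_def]; simp, hpos, ?_⟩, fun b hb => ?_⟩
  · push_cast
    ring
  · have h5 := root_minors a ha b (hLB _ _ (nested_hom a) b hb) r m (by omega) (by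
      rw [ex_succ' a (r + m) hrm]
      omega)
    rw [sum_ex a r m hrm] at h5
    rw [← h5]
    congr 1
    push_cast
    rfl

end Pool.Agent.K6.H33.PT
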