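import Pool.Agent.K6.H33.NT.Lin
import Pool.Agent.Helper929.Pfaffian

set_option autoImplicit false

/-! # Nested Pfaffians of a skew matrix with an additional partial row: the statements -/

namespace Pool.Agent.K6.H33.PT

open Matrix Pool.Agent.K6.H33.NT

/-- Alternating arrays. -/
def Alt {A : Type} [CommRing A] (C : ℕ → ℕ → A) : Prop := (∀ i, C i i = 0) ∧ ∀ i j, C i j = - C j i

/-- The Pfaffian of the first `2 q` rows and columns. -/
def pN {A : Type} [CommRing A] (q : ℕ) (F : ℕ → ℕ → A) : A :=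
  Pool.Agent.Helper929.pf (2 * q) (Matrix.of fun i j : Fin (2 * q) => F i j)

/-- The array with the row `u` on top and the column `- u` on the left. -/
def bt {A : Type} [CommRing A] (u : ℕ → A) (C : ℕ → ℕ → A) : ℕ → ℕ → A
  | 0, 0 => 0
  | 0, j + 1 => u j
  | i + 1, 0 => - u i
  | i + 1, j + 1 => C i j

/-- `u o` for the indices `o < m` which are not the pivot. -/
def lm {A : Type} [CommRing A] (u : ℕ → A) (k m o : ℕ) : A := if o < m ∧ o ≠ k then u o else 0

/-- The new array `C'`: the indices `o < m`, `o ≠ k`, are cleaned with the pivot `k` and the indices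
are permuted by `mv`. -/
def New {A : Type} [CommRing A] (k m L : ℕ) (u : ℕ → A) (C C' : ℕ → ℕ → A) : Prop :=
  ∀ i < L, ∀ j < L, u k * C' i j = u k * C (mv k m i) (mv k m j) +
    lm u k m (mv k m i) * C (mv k m j) k - lm u k m (mv k m j) * C (mv k m i) k

/-- Piece LS (the pivot is not among the indices). -/
def S_LS : Prop := ∀ {A : Type} [CommRing A] {k m q L : ℕ} (_ : 2 * q + 1 ≤ k) (_ : k < m)
  (_ : 2 * q + 1 ≤ L) (u : ℕ → A) (C C' : ℕ → ℕ → A), Alt C → Alt C' → IsUnit (u k) →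
  New k m L u C C' → pN (q + 1) (bt u C) = pN (q + 1) (bt u C')

/-- Piece LM. -/
def S_LM : Prop := ∀ {A : Type} [CommRing A] {k m q L : ℕ} (_ : k ≤ 2 * q) (_ : 2 * q < m)
  (_ : 2 * q ≤ L) (u : ℕ → A) (C C' : ℕ → ℕ → A), Alt C → Alt C' → IsUnit (u k) →
  New k m L u C C' → pN (q + 1) (bt u C) = (-1) ^ k * u k * pN q C'

/-- Piece LL. -/
def S_LL : Prop := ∀ {A : Type} [CommRing A] {k m q L : ℕ} (hk : k < m) (hm : m ≤ 2 * q)
  (_ : 2 * q ≤ L) (u : ℕ → A) (C C' : ℕ → ℕ → A), Alt C → Alt C' → IsUnit (u k) →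
  New k m L u C C' → pN q C = ((Equiv.Perm.sign (sg k m (2 * q) hk hm) : ℤ) : A) * pN q C'

end Pool.Agent.K6.H33.PT
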