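import Pool.Agent.K6.H33.NT.Stm
import Pool.Agent.K6.H33.PT.LStm

set_option autoImplicit false

/-! # Nested Pfaffians: the states of the recursion -/

namespace Pool.Agent.K6.H33.PT

open MvPolynomial Pool.Agent.W428.MOT Pool.Agent.TH192.DT Pool.Agent.TH192.MT
  Pool.Agent.TH192.MU Pool.Agent.K6.H33.NT

/-- The pairs of indices `i < j`. -/
abbrev Pr (m : ℕ) : Type := {q : Fin m × Fin m // q.1 < q.2}

/-- The pair `i`, `j`, sorted. -/
def sp {M : ℕ} (i j : Fin M) (h : i ≠ j) : Pr M :=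
  if h1 : i < j then ⟨(i, j), h1⟩ else ⟨(j, i), lt_of_le_of_ne (not_lt.1 h1) h.symm⟩

theorem sp_lt {M : ℕ} {i j : Fin M} (h : i < j) : sp i j h.ne = ⟨(i, j), h⟩ := dif_pos h

theorem sp_comm {M : ℕ} (i j : Fin M) (h : i ≠ j) : sp i j h = sp j i h.symm := by
  unfold sp
  rcases lt_or_gt_of_ne h with h1 | h1
  · rw [dif_pos h1, dif_neg h1.not_gt]
  · rw [dif_neg h1.not_gt, dif_pos h1]

/-- The coordinates of a state: a partial row with `m` entries and a skew matrix of size `2 N + 1`. -/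
abbrev Co (N m : ℕ) : Type := Fin m ⊕ Pr (2 * N + 1)

/-- The sign. -/
def ep (σ : ℕ → ℕ) (i j : ℕ) : ℤ := if σ i < σ j then 1 else -1

theorem ep_sq (σ : ℕ → ℕ) (i j : ℕ) : ep σ i j * ep σ i j = 1 := by
  unfold ep
  split_ifs <;> norm_num

theorem ep_neg (σ : ℕ → ℕ) (hσ : Function.Injective σ) {i j : ℕ} (h : i ≠ j) :
    ep σ i j = - ep σ j i := by
  unfold ep
  have h1 : σ i ≠ σ j := fun h2 => h (hσ h2)
  rcases lt_or_gt_of_ne h1 with h2 | h2
  · rw [if_pos h2, if_neg h2.not_gt]; norm_num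
  · rw [if_neg h2.not_gt, if_pos h2]

/-- The partial row. -/
def ux (σ : ℕ → ℕ) {A : Type} [CommRing A] {N m : ℕ} (x : Co N m → A) (b : ℕ) : A :=
  if h : b < m then (ep σ 0 (b + 1) : A) * x (Sum.inl ⟨b, h⟩) else 0

/-- The skew matrix. -/
def cx (σ : ℕ → ℕ) {A : Type} [CommRing A] {N m : ℕ} (x : Co N m → A) (a b : ℕ) : A :=
  if h : a ≠ b ∧ a < 2 * N + 1 ∧ b < 2 * N + 1 then
    (ep σ (a + 1) (b + 1) : A) * x (Sum.inr (sp (⟨a, h.2.1⟩ : Fin (2 * N + 1)) ⟨b, h.2.2⟩
      (fun h' => h.1 (congrArg Fin.val h')))) else 0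

theorem cx_alt (σ : ℕ → ℕ) (hσ : Function.Injective σ) {A : Type} [CommRing A] {N m : ℕ}
    (x : Co N m → A) : Alt (cx σ x) := by
  constructor
  · intro i
    unfold cx
    rw [dif_neg (by tauto)]
  · intro i j
    unfold cx
    by_cases h : i ≠ j ∧ i < 2 * N + 1 ∧ j < 2 * N + 1
    · rw [dif_pos h, dif_pos ⟨h.1.symm, h.2.2, h.2.1⟩, sp_comm, ep_neg σ hσ (by omega)]
      push_cast
      ring
    · rw [dif_neg h, dif_neg (by tauto), neg_zero]

/-- The value of the polynomial of the family `t`: the families `t < r` are trivial. -/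
def gv (σ : ℕ → ℕ) {A : Type} [CommRing A] {N m : ℕ} (r : ℕ) (x : Co N m → A) (t : ℕ) : A :=
  if t < r then 1 else if 2 * (t - r) < m then pN (t - r + 1) (bt (ux σ x) (cx σ x)) else
    pN (t - r) (cx σ x)

/-- The polynomials. -/
noncomputable def Gs (σ : ℕ → ℕ) (n r N m : ℕ) (t : Fin n) : MvPolynomial (Co N m) ℤ :=
  gv σ r (fun i => X i) t

theorem map_pN {A B : Type} [CommRing A] [CommRing B] (φ : A →+* B) (q : ℕ) (F : ℕ → ℕ → A) :
    φ (pN q F) = pN q (fun i j => φ (F i j)) := by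
  unfold pN
  rw [Pool.Agent.Helper929.pf_map]
  congr 1

theorem pN_congr {A : Type} [CommRing A] {q : ℕ} {F F' : ℕ → ℕ → A}
    (h : ∀ i < 2 * q, ∀ j < 2 * q, F i j = F' i j) : pN q F = pN q F' := by
  unfold pN
  congr 1
  ext i j
  exact h i i.2 j j.2

theorem ev_ux (σ : ℕ → ℕ) {A : Type} [CommRing A] {N m : ℕ} (x : Co N m → A) (b : ℕ) :
    ev x (ux σ (fun i : Co N m => (X i : MvPolynomial (Co N m) ℤ)) b) = ux σ x b := by
  unfold ux
  split_ifs
  · rw [map_mul, map_intCast, ev_X]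
  · rw [map_zero]

theorem ev_cx (σ : ℕ → ℕ) {A : Type} [CommRing A] {N m : ℕ} (x : Co N m → A) (a b : ℕ) :
    ev x (cx σ (fun i : Co N m => (X i : MvPolynomial (Co N m) ℤ)) a b) = cx σ x a b := by
  unfold cx
  split_ifs
  · rw [map_mul, map_intCast, ev_X]
  · rw [map_zero]

theorem ev_Gs (σ : ℕ → ℕ) {A : Type} [CommRing A] {n r N m : ℕ} (x : Co N m → A) (t : Fin n) :
    ev x (Gs σ n r N m t) = gv σ r x t := by
  unfold Gs gv
  split_ifs
  · rw [map_one]
  · rw [map_pN]
    refine pN_congr fun i _ j _ => ?_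
    rcases i with _ | i <;> rcases j with _ | j
    · exact map_zero _
    · exact ev_ux σ x j
    · show ev x (- _) = - _
      rw [map_neg, ev_ux]
    · exact ev_cx σ x i j
  · rw [map_pN]
    exact pN_congr fun i _ j _ => ev_cx σ x i j

/-! ### the pivots -/

section pivot

variable (σ : ℕ → ℕ) (n r N m k : ℕ) (hk : k < m) (hm : m ≤ 2 * N + 1)

/-- the new position of the index `i` -/
def mF (i : Fin (2 * N + 1)) : Fin (2 * N + 1) := ⟨mv k m i, mv_lt hk hm i.2⟩

theorem mF_inj : Function.Injective (mF N m k hk hm) := by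
  intro i j h
  simp only [mF, Fin.mk.injEq] at h
  exact Fin.ext (mv_inj hk h)

/-- the coordinates -/
def eF : ({b : Fin m // k ≤ (b : ℕ)} ⊕ Co N k) → Co N m
  | Sum.inl b => Sum.inl b.1
  | Sum.inr (Sum.inl b) => Sum.inl ⟨b, by omega⟩
  | Sum.inr (Sum.inr q) => Sum.inr (sp (mF N m k hk hm q.1.1) (mF N m k hk hm q.1.2)
      (fun h => q.2.ne (mF_inj N m k hk hm h)))

theorem sp_inj {M : ℕ} {f : Fin M → Fin M} (hf : Function.Injective f) {q q' : Pr M}
    (h : sp (f q.1.1) (f q.1.2) (fun h => q.2.ne (hf h)) =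
      sp (f q'.1.1) (f q'.1.2) (fun h => q'.2.ne (hf h))) : q = q' := by
  have hq := q.2
  have hq' := q'.2
  unfold sp at h
  split_ifs at h with h1 h2 h2
  · simp only [Subtype.mk.injEq, Prod.mk.injEq] at h
    exact Subtype.ext (Prod.ext (hf h.1) (hf h.2))
  · simp only [Subtype.mk.injEq, Prod.mk.injEq] at h
    have e1 := hf h.1
    have e2 := hf h.2
    rw [e1, e2] at hq
    exact absurd hq hq'.not_gt
  · simp only [Subtype.mk.injEq, Prod.mk.injEq] at h
    have e1 := hf h.1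
    have e2 := hf h.2
    rw [e1, e2] at hq
    exact absurd hq hq'.not_gt
  · simp only [Subtype.mk.injEq, Prod.mk.injEq] at h
    exact Subtype.ext (Prod.ext (hf h.2) (hf h.1))

theorem sp_surj {M : ℕ} {f : Fin M → Fin M} (hf : Function.Injective f) (q : Pr M) :
    ∃ q' : Pr M, sp (f q'.1.1) (f q'.1.2) (fun h => q'.2.ne (hf h)) = q := by
  have h1 : Function.Injective (fun q' : Pr M => sp (f q'.1.1) (f q'.1.2)
      (fun h => q'.2.ne (hf h))) := fun a b h => sp_inj hf h
  exact (Finite.injective_iff_surjective.1 h1) q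

theorem eF_bij : Function.Bijective (eF N m k hk hm) := by
  constructor
  · rintro (⟨b, hb⟩ | b | q) (⟨b', hb'⟩ | b' | q') h
    · simp only [eF, Sum.inl.injEq] at h
      subst h; rfl
    · simp only [eF, Sum.inl.injEq] at h
      subst h
      exact absurd b'.2 (not_lt.2 hb)
    · simp [eF] at h
    · simp only [eF, Sum.inl.injEq] at h
      subst h
      exact absurd b.2 (not_lt.2 hb')
    · simp only [eF, Sum.inl.injEq, Fin.mk.injEq] at h
      rw [Fin.ext h]
    · simp [eF] at h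
    · simp [eF] at h
    · simp [eF] at h
    · simp only [eF, Sum.inr.injEq] at h
      rw [sp_inj (mF_inj N m k hk hm) h]
  · rintro (b | q)
    · by_cases h : k ≤ (b : ℕ)
      · exact ⟨Sum.inl ⟨b, h⟩, rfl⟩
      · exact ⟨Sum.inr (Sum.inl ⟨b, by omega⟩), rfl⟩
    · obtain ⟨q', hq'⟩ := sp_surj (mF_inj N m k hk hm) q
      exact ⟨Sum.inr (Sum.inr q'), congrArg Sum.inr hq'⟩

/-- the coordinates -/
noncomputable def eE : ({b : Fin m // k ≤ (b : ℕ)} ⊕ Co N k) ≃ Co N m :=
  Equiv.ofBijective _ (eF_bij N m k hk hm)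

theorem eE_inl (b : {b : Fin m // k ≤ (b : ℕ)}) : eE N m k hk hm (Sum.inl b) = Sum.inl b.1 := rfl
theorem eE_inrl (b : Fin k) : eE N m k hk hm (Sum.inr (Sum.inl b)) = Sum.inl ⟨b, by omega⟩ := rfl
theorem eE_inrr (q : Pr (2 * N + 1)) : eE N m k hk hm (Sum.inr (Sum.inr q)) =
    Sum.inr (sp (mF N m k hk hm q.1.1) (mF N m k hk hm q.1.2)
      (fun h => q.2.ne (mF_inj N m k hk hm h))) := rfl

/-- the coordinates which are not shifted -/
def qq : Co N k → Prop
  | Sum.inl _ => True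
  | Sum.inr q => m ≤ (q.1.1 : ℕ) + 1 ∨ (q.1.2 : ℕ) + 1 = m

/-- the shifts in terms of the old coordinates -/
noncomputable def g0 {A : Type} [CommRing A] (x : Co N m → A) (i j : ℕ) : A :=
  - ((ep σ (mv k m i + 1) (mv k m j + 1) : A) * (lm (ux σ x) k m (mv k m i) * cx σ x (mv k m j) k -
    lm (ux σ x) k m (mv k m j) * cx σ x (mv k m i) k))

open Classical in
/-- the shifts -/
noncomputable def gg : Co N k → MvPolynomial ({b : Fin m // k ≤ (b : ℕ)} ⊕ Co N k) ℤ
  | Sum.inl _ => 0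
  | Sum.inr q => if m ≤ (q.1.1 : ℕ) + 1 ∨ (q.1.2 : ℕ) + 1 = m then 0 else
      g0 σ N m k (fun i => X ((eE N m k hk hm).symm i)) q.1.1 q.1.2

theorem mv_top (h : k < m) : mv k m (m - 1) = k := by
  unfold mv
  rw [if_neg (by omega), if_neg (by omega), if_pos (by omega)]

theorem lm_k {A : Type} [CommRing A] (u : ℕ → A) (k m : ℕ) : lm u k m k = 0 := by
  unfold lm
  rw [if_neg (by tauto)]

theorem lm_big {A : Type} [CommRing A] (u : ℕ → A) {k m o : ℕ} (h : m ≤ o) : lm u k m o = 0 := by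
  unfold lm
  rw [if_neg (by omega)]

theorem mv_big {k m i : ℕ} (hk : k < m) (h : m ≤ i) : mv k m i = i := by
  unfold mv
  rw [if_neg (by omega), if_neg (by omega), if_neg (by omega)]

/-- the shift vanishes at the coordinates which are not shifted -/
theorem g0_zero {A : Type} [CommRing A] (x : Co N m → A) (hk : k < m) (q : Pr (2 * N + 1))
    (h : m ≤ (q.1.1 : ℕ) + 1 ∨ (q.1.2 : ℕ) + 1 = m) : g0 σ N m k x q.1.1 q.1.2 = 0 := by
  have hlt : (q.1.1 : ℕ) < q.1.2 := q.2
  have hkk : ∀ a : ℕ, cx σ x a a = 0 := fun a => by unfold cx; rw [dif_neg (by tauto)]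
  unfold g0
  rcases h with h | h
  · have h2 : lm (ux σ x) k m (mv k m q.1.2) = 0 := by
      rw [mv_big hk (by omega), lm_big _ (by omega)]
    rcases Nat.lt_or_ge (q.1.1 : ℕ) m with h3 | h3
    · have h4 : (q.1.1 : ℕ) = m - 1 := by omega
      rw [h4, mv_top m k hk, lm_k, h2]
      ring
    · rw [mv_big hk h3, lm_big _ h3, h2]
      ring
  · have h4 : (q.1.2 : ℕ) = m - 1 := by omega
    rw [h4, mv_top m k hk, lm_k, hkk]
    ring

theorem ev_g0 {A : Type} [CommRing A] {τ : Type} (y : τ → A) (f : Co N m → τ) (i j : ℕ) :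
    ev y (g0 σ N m k (fun i => (X (f i) : MvPolynomial τ ℤ)) i j) =
      g0 σ N m k (fun i => y (f i)) i j := by
  have h1 : ∀ b, ev y (ux σ (fun i : Co N m => (X (f i) : MvPolynomial τ ℤ)) b) =
      ux σ (fun i => y (f i)) b := by
    intro b
    unfold ux
    split_ifs
    · rw [map_mul, map_intCast, ev_X]
    · rw [map_zero]
  have h2 : ∀ a b, ev y (cx σ (fun i : Co N m => (X (f i) : MvPolynomial τ ℤ)) a b) =
      cx σ (fun i => y (f i)) a b := by
    intro a b
    unfold cx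
    split_ifs
    · rw [map_mul, map_intCast, ev_X]
    · rw [map_zero]
  have h3 : ∀ o, ev y (lm (ux σ (fun i : Co N m => (X (f i) : MvPolynomial τ ℤ))) k m o) =
      lm (ux σ (fun i => y (f i))) k m o := by
    intro o
    unfold lm
    split_ifs
    · exact h1 o
    · exact map_zero _
  unfold g0
  rw [map_neg, map_mul, map_intCast, map_sub, map_mul, map_mul, h2, h2, h3, h3]

/-- the new labels -/
def sN (i : ℕ) : ℕ := match i with
  | 0 => σ 0
  | i + 1 => σ (mv k m i + 1)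

theorem sN_inj (hσ : Function.Injective σ) (hk : k < m) : Function.Injective (sN σ m k) := by
  intro i j h
  rcases i with _ | i <;> rcases j with _ | j
  · rfl
  · have := hσ h; omega
  · have := hσ h; omega
  · have h1 : mv k m i + 1 = mv k m j + 1 := hσ h
    rw [mv_inj hk (by omega : mv k m i = mv k m j)]

theorem ep_sN (i j : ℕ) : ep (sN σ m k) (i + 1) (j + 1) = ep σ (mv k m i + 1) (mv k m j + 1) := rfl

/-- the shift depends only on the pivot block and the unshifted coordinates -/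
theorem g0_dep {A : Type} [CommRing A] (x x' : ({b : Fin m // k ≤ (b : ℕ)} ⊕ Co N k) → A)
    (h1 : ∀ a, x (Sum.inl a) = x' (Sum.inl a)) (h2 : ∀ y, qq N m k y → x (Sum.inr y) = x' (Sum.inr y))
    (i j : ℕ) (hi : i < 2 * N + 1) (hj : j < 2 * N + 1) :
    g0 σ N m k (fun c => x ((eE N m k hk hm).symm c)) i j =
      g0 σ N m k (fun c => x' ((eE N m k hk hm).symm c)) i j := by
  have hu : ∀ o, ux σ (fun c => x ((eE N m k hk hm).symm c)) o =
      ux σ (fun c => x' ((eE N m k hk hm).symm c)) o := by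
    intro o
    unfold ux
    split_ifs with h
    · congr 1
      by_cases h3 : k ≤ o
      · have e : (eE N m k hk hm).symm (Sum.inl ⟨o, h⟩) = Sum.inl ⟨⟨o, h⟩, h3⟩ := by
          rw [Equiv.symm_apply_eq, eE_inl]
        show x ((eE N m k hk hm).symm _) = x' ((eE N m k hk hm).symm _)
        rw [e, h1]
      · have e : (eE N m k hk hm).symm (Sum.inl ⟨o, h⟩) = Sum.inr (Sum.inl ⟨o, by omega⟩) := by
          rw [Equiv.symm_apply_eq, eE_inrl]
        show x ((eE N m k hk hm).symm _) = x' ((eE N m k hk hm).symm _)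
        rw [e, h2 _ (show qq N m k (Sum.inl _) from trivial)]
    · rfl
  have hlm : ∀ o, lm (ux σ (fun c => x ((eE N m k hk hm).symm c))) k m o =
      lm (ux σ (fun c => x' ((eE N m k hk hm).symm c))) k m o := by
    intro o
    unfold lm
    rw [hu]
  have hc : ∀ i, i < 2 * N + 1 → cx σ (fun c => x ((eE N m k hk hm).symm c)) (mv k m i) k =
      cx σ (fun c => x' ((eE N m k hk hm).symm c)) (mv k m i) k := by
    intro i hi
    unfold cx
    by_cases h : mv k m i ≠ k ∧ mv k m i < 2 * N + 1 ∧ k < 2 * N + 1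
    · rw [dif_pos h, dif_pos h]
      congr 1
      have him : i ≠ m - 1 := by
        intro h3
        apply h.1
        rw [h3, mv_top m k hk]
      have hmm : m - 1 < 2 * N + 1 := by omega
      have hne : (⟨i, hi⟩ : Fin (2 * N + 1)) ≠ ⟨m - 1, hmm⟩ := fun h3 => him (congrArg Fin.val h3)
      have e : (eE N m k hk hm).symm (Sum.inr (sp (⟨mv k m i, h.2.1⟩ : Fin (2 * N + 1)) ⟨k, h.2.2⟩
          (fun h' => h.1 (congrArg Fin.val h')))) =
          Sum.inr (Sum.inr (sp (⟨i, hi⟩ : Fin (2 * N + 1)) ⟨m - 1, hmm⟩ hne)) := by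
        rw [Equiv.symm_apply_eq, eE_inrr]
        congr 1
        have e1 : mF N m k hk hm ⟨i, hi⟩ = ⟨mv k m i, h.2.1⟩ := rfl
        have e2 : mF N m k hk hm ⟨m - 1, hmm⟩ = ⟨k, h.2.2⟩ := Fin.ext (mv_top m k hk)
        rcases lt_or_gt_of_ne hne with h3 | h3
        · simp only [sp_lt h3]
          congr 1
          · exact e2.symm
        · rw [sp_comm ⟨i, hi⟩]
          simp only [sp_lt h3]
          rw [sp_comm]
          congr 1
          · exact e2.symm
      show x ((eE N m k hk hm).symm _) = x' ((eE N m k hk hm).symm _)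
      rw [e, h2]
      rcases lt_or_gt_of_ne hne with h3 | h3
      · rw [sp_lt h3]
        right
        show (m - 1) + 1 = m
        omega
      · rw [sp_comm, sp_lt h3]
        left
        show m ≤ (m - 1) + 1
        omega
    · rw [dif_neg h, dif_neg h]
  unfold g0
  rw [hlm, hlm, hc i hi, hc j hj]

end pivot

end Pool.Agent.K6.H33.PT
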