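import Pool.Agent.K6.H33.PT.NS
import Pool.Agent.K6.H7.PT.Lin

set_option autoImplicit false

/-! # Nested Pfaffians: the pivots -/

namespace Pool.Agent.K6.H33.PT

open MvPolynomial Pool.Agent.W428.MOT Pool.Agent.TH192.DT Pool.Agent.TH192.MT
  Pool.Agent.TH192.MU Pool.Agent.K6.H33.NT

section pivot

variable (σ : ℕ → ℕ) (hσ : Function.Injective σ) (n r N m k : ℕ) (hk : k < m)
  (hm : m ≤ 2 * N + 1)

open Classical in
/-- the signs -/
noncomputable def ss (t : ℕ) : ℤ :=
  if t < r then 1 else if 2 * (t - r) < k then 1 else if 2 * (t - r) < m then (-1) ^ k else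
    if h : m ≤ 2 * (t - r) then (Equiv.Perm.sign (sg k m (2 * (t - r)) hk h) : ℤ) else 1

/-- the exponents of the pivot -/
def rr (t : ℕ) : ℕ :=
  if t < r then 0 else if 2 * (t - r) < k then 0 else if 2 * (t - r) < m then 1 else 0

theorem cx_lt (σ : ℕ → ℕ) {A : Type} [CommRing A] {N m : ℕ} (x : Co N m → A)
    (q : Pr (2 * N + 1)) : cx σ x q.1.1 q.1.2 =
      (ep σ ((q.1.1 : ℕ) + 1) ((q.1.2 : ℕ) + 1) : A) * x (Sum.inr q) := by
  have hlt : (q.1.1 : ℕ) < q.1.2 := q.2
  unfold cx
  rw [dif_pos ⟨by omega, q.1.1.2, q.1.2.2⟩]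
  have h1 : sp (⟨(q.1.1 : ℕ), q.1.1.2⟩ : Fin (2 * N + 1)) ⟨(q.1.2 : ℕ), q.1.2.2⟩
      (fun h' => by have := congrArg Fin.val h'; simp only at this; omega) = q := sp_lt q.2
  rw [h1]

include hσ in
/-- the relations of the entries -/
theorem new_of {A : Type} [CommRing A] (x : Co N m → A) (x' : Co N k → A)
    (hrel : ∀ q : Pr (2 * N + 1), ux σ x k * x' (Sum.inr q) =
      ux σ x k * x (Sum.inr (sp (mF N m k hk hm q.1.1) (mF N m k hk hm q.1.2)
        (fun h => q.2.ne (mF_inj N m k hk hm h)))) - g0 σ N m k x q.1.1 q.1.2) :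
    New k m (2 * N + 1) (ux σ x) (cx σ x) (cx (sN σ m k) x') := by
  have hA := cx_alt σ hσ x
  have hA' := cx_alt (sN σ m k) (sN_inj σ m k hσ hk) x'
  have key : ∀ i < 2 * N + 1, ∀ j < 2 * N + 1, i < j →
      ux σ x k * cx (sN σ m k) x' i j = ux σ x k * cx σ x (mv k m i) (mv k m j) +
      lm (ux σ x) k m (mv k m i) * cx σ x (mv k m j) k -
        lm (ux σ x) k m (mv k m j) * cx σ x (mv k m i) k := by
    intro i hi j hj hij
    have h1 := hrel ⟨(⟨i, hi⟩, ⟨j, hj⟩), hij⟩
    simp only at h1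
    have h2 : cx (sN σ m k) x' i j = (ep σ (mv k m i + 1) (mv k m j + 1) : A) *
        x' (Sum.inr ⟨(⟨i, hi⟩, ⟨j, hj⟩), hij⟩) :=
      cx_lt (sN σ m k) x' ⟨(⟨i, hi⟩, ⟨j, hj⟩), hij⟩
    have hne : mv k m i ≠ mv k m j := fun h => hij.ne (mv_inj hk h)
    have h3 : cx σ x (mv k m i) (mv k m j) = (ep σ (mv k m i + 1) (mv k m j + 1) : A) *
        x (Sum.inr (sp (mF N m k hk hm ⟨i, hi⟩) (mF N m k hk hm ⟨j, hj⟩)
          (fun h => hij.ne (congrArg Fin.val (mF_inj N m k hk hm h))))) := by
      unfold cx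
      rw [dif_pos ⟨hne, mv_lt hk hm hi, mv_lt hk hm hj⟩]
      rfl
    have h4 : (ep σ (mv k m i + 1) (mv k m j + 1) : A) * (ep σ (mv k m i + 1) (mv k m j + 1) : A)
        = 1 := by
      exact_mod_cast congrArg (Int.cast : ℤ → A) (ep_sq σ (mv k m i + 1) (mv k m j + 1))
    unfold g0 at h1
    rw [h2, h3]
    generalize hεd : (ep σ (mv k m i + 1) (mv k m j + 1) : A) = ε at *
    linear_combination ε * h1 + (lm (ux σ x) k m (mv k m i) * cx σ x (mv k m j) k -
        lm (ux σ x) k m (mv k m j) * cx σ x (mv k m i) k) * h4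
  intro i hi j hj
  rcases lt_trichotomy i j with h | h | h
  · exact key i hi j hj h
  · subst h
    rw [hA'.1, hA.1]
    ring
  · rw [hA'.2 i j, hA.2 (mv k m i) (mv k m j)]
    linear_combination - key j hj i hi h

/-- The pivot. -/
noncomputable def piv (hn : n = r + 1 + N) : PivQ (Gs σ n r N m) (Gs (sN σ m k) n r N k) where
  P := {b : Fin m // k ≤ (b : ℕ)}
  fP := inferInstance
  e := eE N m k hk hm
  u := C (ep σ 0 (k + 1)) * X ⟨⟨k, hk⟩, le_rfl⟩
  q := qq N m k
  g := gg σ N m k hk hm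
  gq := by
    rintro (b | q) hy
    · rfl
    · simp only [gg]
      exact if_pos hy
  gd := by
    intro A _ x x' h1 h2 y
    rcases y with b | q
    · simp only [gg, map_zero]
    · simp only [gg]
      split_ifs with h
      · simp only [map_zero]
      · rw [ev_g0, ev_g0]
        exact g0_dep σ N m k hk hm x x' h1 h2 _ _ q.1.1.2 q.1.2.2
  s := fun t => ss r m k hk t
  hs := by
    intro t
    unfold ss
    split_ifs
    · norm_num
    · norm_num
    · rw [← pow_add, ← two_mul, pow_mul]; simp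
    · rw [← Units.val_mul, Int.units_mul_self]; rfl
    · norm_num
  r := fun t => rr r m k t
  hc := by
    intro A _ x x' hU hrel t
    have hu0 : ev (fun a : {b : Fin m // k ≤ (b : ℕ)} => x (eE N m k hk hm (Sum.inl a)))
        (C (ep σ 0 (k + 1)) * X ⟨⟨k, hk⟩, le_rfl⟩) = ux σ x k := by
      rw [map_mul, ev_X, eE_inl, ev_C]
      unfold ux
      rw [dif_pos hk]
    rw [hu0] at hU ⊢
    simp only [hu0] at hrel
    -- the relations
    have hu' : ∀ j, j < k → ux σ x j = ux (sN σ m k) x' j := by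
      intro j hj
      have h1 := hrel (Sum.inl ⟨j, hj⟩)
      simp only [gg, map_zero, sub_zero, eE_inrl] at h1
      have h2 := hU.mul_left_cancel h1
      have h3 : mv k m j = j := by unfold mv; rw [if_pos hj]
      have h4 : ep (sN σ m k) 0 (j + 1) = ep σ 0 (j + 1) := by
        show ep σ 0 (mv k m j + 1) = _
        rw [h3]
      unfold ux
      rw [dif_pos (by omega), dif_pos hj, h2, h4]
    have hN := new_of σ hσ N m k hk hm x x' (by
      intro q
      have h1 := hrel (Sum.inr q)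
      rw [eE_inrr] at h1
      rw [h1]
      congr 1
      simp only [gg]
      split_ifs with h
      · rw [map_zero, g0_zero σ N m k x hk q h]
      · rw [ev_g0]
        congr 1
        funext c
        rw [Equiv.apply_symm_apply])
    have hA := cx_alt σ hσ x
    have hA' := cx_alt (sN σ m k) (sN_inj σ m k hσ hk) x'
    rw [ev_Gs, ev_Gs]
    have htN : (t : ℕ) - r ≤ N := by have := t.2; omega
    unfold gv ss rr
    by_cases h1 : (t : ℕ) < r
    · simp only [if_pos h1, Int.cast_one, pow_zero, mul_one]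
    · simp only [if_neg h1]
      by_cases h2 : 2 * ((t : ℕ) - r) < k
      · simp only [if_pos h2, if_pos (h2.trans hk), Int.cast_one, pow_zero, one_mul]
        rw [H7.PT.t_LS (by omega) hk (by omega) (ux σ x) (cx σ x) (cx (sN σ m k) x') hA hA' hU hN]
        refine pN_congr fun i hi j hj => ?_
        rcases i with _ | i <;> rcases j with _ | j
        · rfl
        · exact hu' j (by omega)
        · show - _ = - _
          rw [hu' i (by omega)]
        · rfl
      · simp only [if_neg h2]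
        by_cases h3 : 2 * ((t : ℕ) - r) < m
        · simp only [if_pos h3, pow_one]
          rw [H7.PT.t_LM (not_lt.1 h2) h3 (by omega) (ux σ x) (cx σ x) (cx (sN σ m k) x') hA hA' hU hN]
          push_cast
          rfl
        · have h4 : m ≤ 2 * ((t : ℕ) - r) := not_lt.1 h3
          simp only [if_neg h3, dif_pos h4, pow_zero, mul_one]
          rw [H7.PT.t_LL hk h4 (by omega) (ux σ x) (cx σ x) (cx (sN σ m k) x') hA hA' hU hN]

end pivot

end Pool.Agent.K6.H33.PT
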