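import Pool.Agent.K6.H33.PT.Piv
import Pool.Agent.K6.H33.NT.Rec
import Pool.Agent.K6.H33.PF.Lead

set_option autoImplicit false

/-! # Nested Pfaffians: the recursion over the states -/

namespace Pool.Agent.K6.H33.PT

open MvPolynomial Pool.Agent.W428.MOT Pool.Agent.TH192.DT Pool.Agent.TH192.MT
  Pool.Agent.TH192.MU Pool.Agent.K6.H33.NT

/-! ### relabelling -/

section relabel

variable (σ : ℕ → ℕ) (hσ : Function.Injective σ) (n r N : ℕ)

/-- the coordinates -/
def eR : (Fin (2 * N + 2) ⊕ Co N (2 * N + 1)) → Co (N + 1) 0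
  | Sum.inl a => Sum.inr ⟨(⟨a, by omega⟩, ⟨2 * N + 2, by omega⟩), by rw [Fin.lt_def]; exact a.2⟩
  | Sum.inr (Sum.inl b) => Sum.inr ⟨(⟨0, by omega⟩, ⟨b + 1, by omega⟩), by
      rw [Fin.lt_def]; exact Nat.succ_pos _⟩
  | Sum.inr (Sum.inr q) => Sum.inr ⟨(⟨q.1.1 + 1, by omega⟩, ⟨q.1.2 + 1, by omega⟩), by
      have h : (q.1.1 : ℕ) < q.1.2 := q.2
      rw [Fin.lt_def]; exact Nat.succ_lt_succ h⟩

theorem eR_bij : Function.Bijective (eR N) := by
  constructor
  · rintro (a | b | q) (a' | b' | q') h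
    · simp only [eR, Sum.inr.injEq, Subtype.mk.injEq, Prod.mk.injEq, Fin.mk.injEq] at h
      rw [Fin.ext h.1]
    · simp only [eR, Sum.inr.injEq, Subtype.mk.injEq, Prod.mk.injEq, Fin.mk.injEq] at h
      have := b'.2
      omega
    · simp only [eR, Sum.inr.injEq, Subtype.mk.injEq, Prod.mk.injEq, Fin.mk.injEq] at h
      have := q'.1.2.2
      omega
    · simp only [eR, Sum.inr.injEq, Subtype.mk.injEq, Prod.mk.injEq, Fin.mk.injEq] at h
      have := b.2
      omega
    · simp only [eR, Sum.inr.injEq, Subtype.mk.injEq, Prod.mk.injEq, Fin.mk.injEq] at h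
      rw [Fin.ext (by omega : (b : ℕ) = b')]
    · simp only [eR, Sum.inr.injEq, Subtype.mk.injEq, Prod.mk.injEq, Fin.mk.injEq] at h
      omega
    · simp only [eR, Sum.inr.injEq, Subtype.mk.injEq, Prod.mk.injEq, Fin.mk.injEq] at h
      have := q.1.2.2
      omega
    · simp only [eR, Sum.inr.injEq, Subtype.mk.injEq, Prod.mk.injEq, Fin.mk.injEq] at h
      omega
    · simp only [eR, Sum.inr.injEq, Subtype.mk.injEq, Prod.mk.injEq, Fin.mk.injEq] at h
      have h1 : q = q' := Subtype.ext (Prod.ext (Fin.ext (by omega)) (Fin.ext (by omega)))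
      rw [h1]
  · rintro (b | ⟨⟨i, j⟩, hij⟩)
    · exact b.elim0
    · have h1 : (i : ℕ) < j := hij
      have h2 := j.2
      by_cases h3 : (j : ℕ) = 2 * N + 2
      · refine ⟨Sum.inl ⟨i, by omega⟩, ?_⟩
        simp only [eR]
        congr 1
        exact Subtype.ext (Prod.ext (Fin.ext rfl) (Fin.ext h3.symm))
      · by_cases h4 : (i : ℕ) = 0
        · refine ⟨Sum.inr (Sum.inl ⟨j - 1, by omega⟩), ?_⟩
          simp only [eR]
          congr 1
          exact Subtype.ext (Prod.ext (Fin.ext h4.symm) (Fin.ext (by simp only; omega)))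
        · refine ⟨Sum.inr (Sum.inr ⟨(⟨i - 1, by omega⟩, ⟨j - 1, by omega⟩), by
            rw [Fin.lt_def]; simp only; omega⟩), ?_⟩
          simp only [eR]
          congr 1
          exact Subtype.ext (Prod.ext (Fin.ext (by simp only; omega)) (Fin.ext (by simp only; omega)))

/-- The next row. -/
noncomputable def nxt (hn : n = r + 1 + (N + 1)) : PivQ (Gs σ n r (N + 1) 0)
    (Gs (fun i => σ (i + 1)) n (r + 1) N (2 * N + 1)) where
  P := Fin (2 * N + 2)
  fP := inferInstance
  e := Equiv.ofBijective _ (eR_bij N)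
  u := 1
  q := fun _ => True
  g := fun _ => 0
  gq := fun _ _ => rfl
  gd := by
    intro A _ x x' _ _ y
    rw [map_zero, map_zero]
  s := fun _ => 1
  hs := fun _ => by norm_num
  r := fun _ => 0
  hc := by
    intro A _ x x' _ hrel t
    have h1 : ∀ y, x' y = x (eR N (Sum.inr y)) := by
      intro y
      have h2 := hrel y
      rw [map_one, one_mul, one_mul, map_zero, sub_zero] at h2
      exact h2
    have hu : ∀ j, j < 2 * N + 1 → ux (fun i => σ (i + 1)) x' j = cx σ x 0 (j + 1) := by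
      intro j hj
      have h3 := cx_lt σ x (⟨(⟨0, by omega⟩, ⟨j + 1, by omega⟩), by
        rw [Fin.lt_def]; exact Nat.succ_pos _⟩ : Pr (2 * (N + 1) + 1))
      simp only at h3
      rw [h3]
      unfold ux
      rw [dif_pos hj, h1]
      rfl
    have hc : ∀ i j, i < 2 * N + 1 → j < 2 * N + 1 →
        cx (fun i => σ (i + 1)) x' i j = cx σ x (i + 1) (j + 1) := by
      intro i j hi hj
      unfold cx
      by_cases hij : i = j
      · subst hij
        rw [dif_neg (by tauto), dif_neg (by tauto)]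
      · rw [dif_pos ⟨hij, hi, hj⟩, dif_pos ⟨by omega, by omega, by omega⟩, h1]
        congr 2
        simp only [eR]
        congr 1
        rcases lt_or_gt_of_ne hij with h | h
        · rw [sp_lt (show (⟨i, hi⟩ : Fin (2 * N + 1)) < ⟨j, hj⟩ from h),
            sp_lt (show (⟨i + 1, by omega⟩ : Fin (2 * (N + 1) + 1)) < ⟨j + 1, by omega⟩ from
              Nat.succ_lt_succ h)]
        · rw [sp_comm, sp_lt (show (⟨j, hj⟩ : Fin (2 * N + 1)) < ⟨i, hi⟩ from h), sp_comm,
            sp_lt (show (⟨j + 1, by omega⟩ : Fin (2 * (N + 1) + 1)) < ⟨i + 1, by omega⟩ from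
              Nat.succ_lt_succ h)]
    rw [ev_Gs, ev_Gs, pow_zero, Int.cast_one, one_mul, one_mul]
    unfold gv
    by_cases h2 : (t : ℕ) < r
    · rw [if_pos h2, if_pos (by omega)]
    · rw [if_neg h2, if_neg (by omega)]
      by_cases h3 : (t : ℕ) < r + 1
      · rw [if_pos h3]
        have h4 : (t : ℕ) - r = 0 := by omega
        rw [h4]
        rfl
      · have h5 : 2 * ((t : ℕ) - (r + 1)) < 2 * N + 1 := by have := t.2; omega
        rw [if_neg h3, if_pos h5]
        have h6 : (t : ℕ) - r = (t : ℕ) - (r + 1) + 1 := by omega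
        rw [h6]
        refine pN_congr fun i hi j hj => ?_
        rcases i with _ | i <;> rcases j with _ | j
        · exact (cx_alt σ hσ x).1 0
        · exact (hu j (by omega)).symm
        · show cx σ x (i + 1) 0 = - ux _ x' i
          rw [hu i (by omega)]
          exact (cx_alt σ hσ x).2 (i + 1) 0
        · exact (hc i j (by omega) (by omega)).symm

/-- the coordinates of the whole matrix -/
def eI : (Empty ⊕ Co N (2 * N + 1)) → Pr (2 * (N + 1))
  | Sum.inl a => a.elim
  | Sum.inr (Sum.inl b) => ⟨(⟨0, by omega⟩, ⟨b + 1, by omega⟩), by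
      rw [Fin.lt_def]; exact Nat.succ_pos _⟩
  | Sum.inr (Sum.inr q) => ⟨(⟨q.1.1 + 1, by omega⟩, ⟨q.1.2 + 1, by omega⟩), by
      have h : (q.1.1 : ℕ) < q.1.2 := q.2
      rw [Fin.lt_def]; exact Nat.succ_lt_succ h⟩

theorem eI_bij : Function.Bijective (eI N) := by
  constructor
  · rintro (a | b | q) (a' | b' | q') h
    · exact a.elim
    · exact a.elim
    · exact a.elim
    · exact a'.elim
    · simp only [eI, Subtype.mk.injEq, Prod.mk.injEq, Fin.mk.injEq] at h
      rw [Fin.ext (by omega : (b : ℕ) = b')]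
    · simp only [eI, Subtype.mk.injEq, Prod.mk.injEq, Fin.mk.injEq] at h
      omega
    · exact a'.elim
    · simp only [eI, Subtype.mk.injEq, Prod.mk.injEq, Fin.mk.injEq] at h
      omega
    · simp only [eI, Subtype.mk.injEq, Prod.mk.injEq, Fin.mk.injEq] at h
      have h1 : q = q' := Subtype.ext (Prod.ext (Fin.ext (by omega)) (Fin.ext (by omega)))
      rw [h1]
  · rintro ⟨⟨i, j⟩, hij⟩
    have h1 : (i : ℕ) < j := hij
    have h2 := j.2
    by_cases h4 : (i : ℕ) = 0
    · refine ⟨Sum.inr (Sum.inl ⟨j - 1, by omega⟩), ?_⟩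
      simp only [eI]
      exact Subtype.ext (Prod.ext (Fin.ext h4.symm) (Fin.ext (by simp only; omega)))
    · refine ⟨Sum.inr (Sum.inr ⟨(⟨i - 1, by omega⟩, ⟨j - 1, by omega⟩), by
        rw [Fin.lt_def]; simp only; omega⟩), ?_⟩
      simp only [eI]
      exact Subtype.ext (Prod.ext (Fin.ext (by simp only; omega)) (Fin.ext (by simp only; omega)))

/-- The leading principal Pfaffians of the generic skew matrix. -/
noncomputable def Gm (n : ℕ) (t : Fin n) : MvPolynomial (Pr (2 * n)) ℤ :=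
  Pool.Agent.K6.H33.PF.lpf (fun q => X q) t

/-- The first row. -/
noncomputable def ini : PivQ (Gm (N + 1)) (Gs id (N + 1) 0 N (2 * N + 1)) where
  P := Empty
  fP := inferInstance
  e := Equiv.ofBijective _ (eI_bij N)
  u := 1
  q := fun _ => True
  g := fun _ => 0
  gq := fun _ _ => rfl
  gd := by
    intro A _ x x' _ _ y
    rw [map_zero, map_zero]
  s := fun _ => 1
  hs := fun _ => by norm_num
  r := fun _ => 0
  hc := by
    intro A _ x x' _ hrel t
    have h1 : ∀ y, x' y = x (eI N (Sum.inr y)) := by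
      intro y
      have h2 := hrel y
      rw [map_one, one_mul, one_mul, map_zero, sub_zero] at h2
      exact h2
    have he : ∀ i j, i < j → ep id i j = 1 := fun i j h => if_pos h
    rw [ev_Gs, pow_zero, Int.cast_one, one_mul, one_mul]
    have h3 : ev x (Gm (N + 1) t) = pN ((t : ℕ) + 1) (fun i j => if h : i < 2 * (N + 1) ∧
        j < 2 * (N + 1) then Pool.Agent.K6.H33.PF.sk x ⟨i, h.1⟩ ⟨j, h.2⟩ else 0) := by
      unfold Gm
      rw [Pool.Agent.K6.H33.PF.map_lpf]
      unfold Pool.Agent.K6.H33.PF.lpf pN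
      congr 1
      ext i j
      have hi : (i : ℕ) < 2 * (N + 1) := by have := t.2; omega
      have hj : (j : ℕ) < 2 * (N + 1) := by have := t.2; omega
      simp only [Matrix.of_apply]
      rw [dif_pos ⟨hi, hj⟩]
      simp only [ev_X]
      rfl
    rw [h3]
    unfold gv
    rw [if_neg (by omega), Nat.sub_zero, if_pos (by have := t.2; omega)]
    have ht := t.2
    have hu : ∀ j (hj : j < 2 * N + 1), ux id x' j = Pool.Agent.K6.H33.PF.sk x
        (⟨0, by omega⟩ : Fin (2 * (N + 1))) ⟨j + 1, by omega⟩ := by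
      intro j hj
      unfold ux
      rw [dif_pos hj, h1, he _ _ (Nat.succ_pos _), Int.cast_one, one_mul,
        Pool.Agent.K6.H33.PF.sk_lt x (show (⟨0, by omega⟩ : Fin (2 * (N + 1))) < ⟨j + 1, by omega⟩ from
          Nat.succ_pos _)]
      rfl
    have hc : ∀ i j (hi : i < 2 * N + 1) (hj : j < 2 * N + 1), i < j →
        cx id x' i j = Pool.Agent.K6.H33.PF.sk x
        (⟨i + 1, by omega⟩ : Fin (2 * (N + 1))) ⟨j + 1, by omega⟩ := by
      intro i j hi hj hij
      have h4 := cx_lt id x' ⟨(⟨i, hi⟩, ⟨j, hj⟩), hij⟩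
      simp only at h4
      rw [h4, he _ _ (Nat.succ_lt_succ hij), Int.cast_one, one_mul, h1,
        Pool.Agent.K6.H33.PF.sk_lt x (show (⟨i + 1, by omega⟩ : Fin (2 * (N + 1))) <
          ⟨j + 1, by omega⟩ from Nat.succ_lt_succ hij)]
      rfl
    have hA := cx_alt id Function.injective_id x'
    refine pN_congr fun i hi j hj => ?_
    rw [dif_pos ⟨by omega, by omega⟩]
    rcases i with _ | i <;> rcases j with _ | j
    · exact Pool.Agent.K6.H33.PF.sk_self _ _
    · exact (hu j (by omega)).symm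
    · show _ = - ux id x' i
      rw [hu i (by omega)]
      exact Pool.Agent.K6.H33.PF.sk_neg _ _ _
    · show _ = cx id x' i j
      rcases lt_trichotomy i j with h | h | h
      · exact (hc i j (by omega) (by omega) h).symm
      · subst h
        rw [hA.1]
        exact Pool.Agent.K6.H33.PF.sk_self _ _
      · rw [hA.2, hc j i (by omega) (by omega) h]
        exact Pool.Agent.K6.H33.PF.sk_neg _ _ _

end relabel

section drop

variable (σ : ℕ → ℕ) (n r N m : ℕ)

/-- the coordinates -/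
def eD : (Fin 1 ⊕ Co N m) → Co N (m + 1)
  | Sum.inl _ => Sum.inl (Fin.last m)
  | Sum.inr (Sum.inl b) => Sum.inl b.castSucc
  | Sum.inr (Sum.inr y) => Sum.inr y

theorem eD_bij : Function.Bijective (eD N m) := by
  constructor
  · rintro (a | b | y) (a' | b' | y') h
    · rw [Subsingleton.elim a a']
    · simp only [eD, Sum.inl.injEq] at h
      exact absurd h.symm (Fin.castSucc_lt_last b').ne
    · simp [eD] at h
    · simp only [eD, Sum.inl.injEq] at h
      exact absurd h (Fin.castSucc_lt_last b).ne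
    · simp only [eD, Sum.inl.injEq] at h
      rw [Fin.castSucc_injective _ h]
    · simp [eD] at h
    · simp [eD] at h
    · simp [eD] at h
    · simp only [eD, Sum.inr.injEq] at h
      rw [h]
  · rintro (b | y)
    · refine Fin.lastCases ?_ (fun b => ?_) b
      · exact ⟨Sum.inl 0, rfl⟩
      · exact ⟨Sum.inr (Sum.inl b), rfl⟩
    · exact ⟨Sum.inr (Sum.inr y), rfl⟩

/-- A coordinate which is not used. -/
noncomputable def drp {T : ℕ} (κ : Fin T → Fin n)
    (hκ : ∀ t, ¬ (r ≤ (κ t : ℕ) ∧ 2 * ((κ t : ℕ) - r) = m)) :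
    PivQ (fun t => Gs σ n r N (m + 1) (κ t)) (fun t => Gs σ n r N m (κ t)) where
  P := Fin 1
  fP := inferInstance
  e := Equiv.ofBijective _ (eD_bij N m)
  u := 1
  q := fun _ => True
  g := fun _ => 0
  gq := fun _ _ => rfl
  gd := by
    intro A _ x x' _ _ y
    rw [map_zero, map_zero]
  s := fun _ => 1
  hs := fun _ => by norm_num
  r := fun _ => 0
  hc := by
    intro A _ x x' _ hrel t
    have h1 : ∀ y, x' y = x (eD N m (Sum.inr y)) := by
      intro y
      have h2 := hrel y
      rw [map_one, one_mul, one_mul, map_zero, sub_zero] at h2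
      exact h2
    rw [ev_Gs, ev_Gs, pow_zero, Int.cast_one, one_mul, one_mul]
    have hk := hκ t
    have hcx : cx σ x = cx σ x' := by
      funext a b
      unfold cx
      by_cases h : a ≠ b ∧ a < 2 * N + 1 ∧ b < 2 * N + 1
      · rw [dif_pos h, dif_pos h, h1]
        rfl
      · rw [dif_neg h, dif_neg h]
    have hux : ∀ j, j < m → ux σ x j = ux σ x' j := by
      intro j hj
      unfold ux
      rw [dif_pos (by omega), dif_pos (by omega), h1]
      rfl
    unfold gv
    by_cases h2 : (κ t : ℕ) < r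
    · rw [if_pos h2, if_pos h2]
    · rw [if_neg h2, if_neg h2]
      by_cases h3 : 2 * ((κ t : ℕ) - r) < m
      · rw [if_pos (by omega), if_pos h3]
        refine pN_congr fun i hi j hj => ?_
        rcases i with _ | i <;> rcases j with _ | j
        · rfl
        · exact hux j (by omega)
        · show - ux σ x i = - ux σ x' i
          rw [hux i (by omega)]
        · show cx σ x i j = cx σ x' i j
          rw [hcx]
      · rw [if_neg (by omega), if_neg h3, hcx]

end drop

/-! ### the recursion -/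

/-- The pairs. -/
def Ds {T n : ℕ} (κ : Fin T → Fin n) (a : Fin T → ℕ) : Set (ℤ × ℤ) :=
  {q | ∃ r l : ℕ, (∃ t, (κ t : ℕ) = r + l) ∧ q = (-((2 * l + 1 : ℕ) : ℤ),
    ((∑ t : Fin T, if r ≤ (κ t : ℕ) ∧ (κ t : ℕ) - r < l + 1 then a t else 0 : ℕ) : ℤ))}

theorem bt_smul {A : Type} [CommRing A] (q : ℕ) (c : A) (u : ℕ → A) (C : ℕ → ℕ → A) :
    pN (q + 1) (bt (fun j => c * u j) C) = c * pN (q + 1) (bt u C) := by
  have h1 : ∀ B : ℕ → ℕ → A, pN (q + 1) B = ∑ j : Fin (2 * q + 1), (-1) ^ (j : ℕ) *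
      B 0 ((j : ℕ) + 1) * Pool.Agent.Helper929.pf (2 * q)
        (Matrix.of fun a b : Fin (2 * q) => B (((j.succAbove a).succ : Fin (2 * q + 2)) : ℕ)
          (((j.succAbove b).succ : Fin (2 * q + 2)) : ℕ)) := fun B => rfl
  rw [h1, h1, Finset.mul_sum]
  refine Finset.sum_congr rfl fun j _ => ?_
  have h2 : (Matrix.of fun a b : Fin (2 * q) => bt (fun j => c * u j) C
      (((j.succAbove a).succ : Fin (2 * q + 2)) : ℕ) (((j.succAbove b).succ : Fin (2 * q + 2)) : ℕ)) =
      (Matrix.of fun a b : Fin (2 * q) => bt u C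
      (((j.succAbove a).succ : Fin (2 * q + 2)) : ℕ) (((j.succAbove b).succ : Fin (2 * q + 2)) : ℕ)) := by
    ext a b
    rfl
  rw [h2]
  have h3 : bt (fun j => c * u j) C 0 ((j : ℕ) + 1) = c * u j := rfl
  have h4 : bt u C 0 ((j : ℕ) + 1) = u j := rfl
  rw [h3, h4]
  ring

/-- the coordinates of the partial row -/
def om (N m : ℕ) : Co N m → Prop := fun y => y.isLeft = true

instance (N m : ℕ) : DecidablePred (om N m) := fun y => by unfold om; infer_instance

theorem card_om (N m : ℕ) : Fintype.card {y : Co N m // om N m y} = m := by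
  have h1 : Function.Bijective (fun b : Fin m => (⟨Sum.inl b, rfl⟩ : {y : Co N m // om N m y})) := by
    constructor
    · intro b b' h
      simpa using h
    · rintro ⟨y | y, hy⟩
      · exact ⟨y, rfl⟩
      · simp [om] at hy
  rw [← Fintype.card_of_bijective h1, Fintype.card_fin]

theorem phom (σ : ℕ → ℕ) {T n : ℕ} (κ : Fin T → Fin n) (r N m : ℕ) :
    PHom (pS (Co N m) (fun t => Gs σ n r N m (κ t))) (om N m)
    (fun t => if r ≤ (κ t : ℕ) ∧ 2 * ((κ t : ℕ) - r) < m then 1 else 0) := by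
  intro t A _ c x
  change ev _ (Gs σ n r N m (κ t)) = c ^ (if r ≤ (κ t : ℕ) ∧ 2 * ((κ t : ℕ) - r) < m then 1 else 0) *
    ev x (Gs σ n r N m (κ t))
  rw [ev_Gs, ev_Gs]
  have hu : ux σ (fun i : Co N m => if om N m i then c * x i else x i) = fun j => c * ux σ x j := by
    funext j
    unfold ux
    by_cases h1 : j < m
    · rw [dif_pos h1, dif_pos h1]
      show (ep σ 0 (j + 1) : A) * (c * x (Sum.inl ⟨j, h1⟩)) = _
      ring
    · rw [dif_neg h1, dif_neg h1, mul_zero]
  have hc : cx σ (fun i : Co N m => if om N m i then c * x i else x i) = cx σ x := by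
    funext a b
    unfold cx
    by_cases h1 : a ≠ b ∧ a < 2 * N + 1 ∧ b < 2 * N + 1
    · rw [dif_pos h1, dif_pos h1]
      rfl
    · rw [dif_neg h1, dif_neg h1]
  unfold gv
  rw [hu, hc]
  by_cases h1 : (κ t : ℕ) < r
  · rw [if_pos h1, if_pos h1, if_neg (by omega), pow_zero, one_mul]
  · rw [if_neg h1, if_neg h1]
    by_cases h2 : 2 * ((κ t : ℕ) - r) < m
    · rw [if_pos h2, if_pos h2, if_pos ⟨by omega, h2⟩, pow_one, bt_smul]
    · rw [if_neg h2, if_neg h2, if_neg (by omega), pow_zero, one_mul]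

theorem ev_CX {A : Type} [CommRing A] {τ : Type} (y : τ → A) (c : ℤ) (i : τ) :
    ev y (C c * X i) = (c : A) * y i := by
  rw [map_mul, ev_X, ev_C]

section rec

variable (hPQ : S_PQ) (hPS : S_PS) {K : Type} [Field K] {R : Type} [CommRing R] {u : Rˣ}
  {M : Meas K R} (hu : M.L = (u : R)) {T n : ℕ} {a : Fin T → ℕ} (ha : ∀ t, 0 < a t)
  (κ : Fin T → Fin n)

include hu ha in
/-- the last state -/
theorem rl_zero (D : Set (ℤ × ℤ)) (r : ℕ) (hn : n = r + 1) (σ : ℕ → ℕ) :
    RL u M a D (pS (Co 0 0) (fun t => Gs σ n r 0 0 (κ t))) := by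
  refine rl_const hu ha D _ fun t => ?_
  unfold Gs gv
  split_ifs with h1 h2
  · rfl
  · omega
  · have h3 : (κ t : ℕ) - r = 0 := by have := (κ t).2; omega
    rw [h3]
    rfl

include hPQ hPS hu ha in
/-- a row -/
theorem rl_row (N r : ℕ) (hn : n = r + 1 + N)
    (h0 : ∀ σ : ℕ → ℕ, Function.Injective σ →
      RL u M a (Ds κ a) (pS (Co N 0) (fun t => Gs σ n r N 0 (κ t)))) :
    ∀ m, m ≤ 2 * N + 1 → ∀ σ : ℕ → ℕ, Function.Injective σ →
      RL u M a (Ds κ a) (pS (Co N m) (fun t => Gs σ n r N m (κ t))) := by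
  intro m
  induction m using Nat.strong_induction_on with
  | _ m ih =>
    intro hm σ hσ
    rcases Nat.eq_zero_or_pos m with rfl | hm0
    · exact h0 σ hσ
    obtain ⟨m, rfl⟩ : ∃ m', m = m' + 1 := ⟨m - 1, by omega⟩
    by_cases hκ : ∃ t, r ≤ (κ t : ℕ) ∧ 2 * ((κ t : ℕ) - r) = m
    · obtain ⟨t0, ht0, ht0'⟩ := hκ
      refine hPS hu ha (om N (m + 1))
        (fun t => if r ≤ (κ t : ℕ) ∧ 2 * ((κ t : ℕ) - r) < m + 1 then 1 else 0)
        (phom σ κ r N (m + 1)) ?_ ?_ ?_
      · refine lt_of_lt_of_le ?_ (Finset.single_le_sum (f := fun t : Fin T =>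
          a t * if r ≤ (κ t : ℕ) ∧ 2 * ((κ t : ℕ) - r) < m + 1 then 1 else 0)
          (fun _ _ => Nat.zero_le _) (Finset.mem_univ t0))
        rw [if_pos (by omega), mul_one]
        exact ha _
      · rw [card_om]
        refine ⟨r, (κ t0 : ℕ) - r, ⟨t0, by omega⟩, ?_⟩
        rw [ht0']
        congr 2
        refine Finset.sum_congr rfl fun t _ => ?_
        rw [mul_ite, mul_one, mul_zero]
        congr 1
        exact propext ⟨fun h => ⟨h.1, by omega⟩, fun h => ⟨h.1, by omega⟩⟩
      · intro π _ V hV hG hC hnz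
        refine hPQ hu _ (B := Fin (m + 1)) (fun k => Co N k)
          (fun k t => Gs (sN σ (m + 1) k) n r N k (κ t))
          (fun k => (piv σ hσ n r N (m + 1) k k.2 hm hn).comp κ)
          (fun k => ih k k.2 (by omega) _ (sN_inj σ (m + 1) k hσ k.2))
          Finset.univ π V hV hG hC fun v hv => ?_
        obtain ⟨i, hi, hi'⟩ := hnz v hv
        rcases i with b | y
        · refine ⟨b, Finset.mem_univ _, ?_⟩
          intro h0
          have h1 : (ep σ 0 ((b : ℕ) + 1) : AlgebraicClosure K) * v (Sum.inr (Sum.inl (Sum.inl b))) = 0 :=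
            (ev_CX (fun q : {c : Fin (m + 1) // (b : ℕ) ≤ (c : ℕ)} =>
              v (Sum.inr (Sum.inl (Sum.inl q.1)))) (ep σ 0 ((b : ℕ) + 1)) ⟨b, le_rfl⟩).symm.trans h0
          rcases mul_eq_zero.1 h1 with h2 | h2
          · unfold ep at h2
            split_ifs at h2 <;> simp at h2
          · exact hi' h2
        · simp [om] at hi
    · push Not at hκ
      exact rl_one hPQ hu (drp σ n r N m κ (fun t h => hκ t h.1 h.2)) rfl
        (ih m (Nat.lt_succ_self m) (by omega) σ hσ)

include hPQ hPS hu ha in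
/-- all the states -/
theorem rl_state : ∀ (N r m : ℕ), n = r + 1 + N → m ≤ 2 * N + 1 →
    ∀ σ : ℕ → ℕ, Function.Injective σ →
    RL u M a (Ds κ a) (pS (Co N m) (fun t => Gs σ n r N m (κ t))) := by
  intro N
  induction N with
  | zero =>
    intro r m hn hm
    exact rl_row hPQ hPS hu ha κ 0 r hn (fun σ _ => rl_zero hu ha κ _ r (by omega) σ) m hm
  | succ N ih =>
    intro r m hn hm
    exact rl_row hPQ hPS hu ha κ (N + 1) r hn
      (fun σ hσ => rl_one hPQ hu ((nxt σ hσ n r N hn).comp κ) rfl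
        (ih (r + 1) (2 * N + 1) (by omega) le_rfl _ (fun i j h => by
          have := hσ h
          omega))) m hm

end rec

/-- **Rationality for the leading principal Pfaffians.** -/
theorem rl_pfaffians (hPQ : S_PQ) (hPS : S_PS) {K : Type} [Field K] {R : Type} [CommRing R] {u : Rˣ}
    {M : Meas K R} (hu : M.L = (u : R)) {T n : ℕ} {a : Fin T → ℕ} (ha : ∀ t, 0 < a t)
    (κ : Fin T → Fin n) :
    RL u M a (Ds κ a) (pS (Pr (2 * n)) (fun t => Gm n (κ t))) := by
  cases n with
  | zero => exact rl_const hu ha _ _ fun t => (κ t).elim0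
  | succ N =>
    exact rl_one hPQ hu ((ini N).comp κ) rfl
      (rl_state hPQ hPS hu ha κ N 0 (2 * N + 1) (by omega) le_rfl id Function.injective_id)

end Pool.Agent.K6.H33.PT
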