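import Pool.Agent.K6.H33.PT.Asm

set_option autoImplicit false

/-! # Functional equations of powers, and roots modulo the integers -/

namespace Pool.Agent.K6.H33.PT

open MvPolynomial Pool.Agent.K6.H33.NM
open Pool.Agent.H628R4.TP (weylS IsBFunction)
open Pool.Agent.K6.H33.PF (npf root_npf root_minors Close cand)

section pow

variable {V : Type}

/-- The operators which are polynomial in `s` with coefficients in the Weyl algebra. -/
def PO (F : ℕ → Module.End ℂ (MvPolynomial V ℂ)) : Prop :=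
  ∃ (ι : Type) (J : Finset ι) (p : ι → Polynomial ℂ) (Q : ι → weylS V), ∀ s : ℕ,
    F s = ∑ i ∈ J, ((p i).eval (s : ℂ)) • (Q i : Module.End ℂ (MvPolynomial V ℂ))

theorem PO.comp {F : ℕ → Module.End ℂ (MvPolynomial V ℂ)} (h : PO F) (N c : ℕ) :
    PO fun s => F (N * s + c) := by
  obtain ⟨ι, J, p, Q, h⟩ := h
  refine ⟨ι, J, fun i => (p i).comp (Polynomial.C (N : ℂ) * Polynomial.X + Polynomial.C (c : ℂ)), Q,
    fun s => ?_⟩
  simp only [h]
  refine Finset.sum_congr rfl fun i _ => ?_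
  rw [Polynomial.eval_comp]
  simp

theorem PO.mul {F G : ℕ → Module.End ℂ (MvPolynomial V ℂ)} (hF : PO F) (hG : PO G) :
    PO fun s => F s * G s := by
  obtain ⟨ι, J, p, Q, hF⟩ := hF
  obtain ⟨ι', J', p', Q', hG⟩ := hG
  refine ⟨ι × ι', J ×ˢ J', fun i => p i.1 * p' i.2, fun i => Q i.1 * Q' i.2, fun s => ?_⟩
  simp only [hF, hG]
  rw [Finset.sum_mul_sum, ← Finset.sum_product']
  refine Finset.sum_congr rfl fun i _ => ?_
  rw [Polynomial.eval_mul, smul_mul_smul_comm]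
  rfl

theorem PO.finsupp {F : ℕ → Module.End ℂ (MvPolynomial V ℂ)} (h : PO F) :
    ∃ P : ℕ →₀ weylS V, ∀ s : ℕ, F s = P.sum fun m Q =>
      ((s : ℂ) ^ m) • (Q : Module.End ℂ (MvPolynomial V ℂ)) := by
  obtain ⟨ι, J, p, Q, h⟩ := h
  refine ⟨∑ i ∈ J, ∑ m ∈ Finset.range ((p i).natDegree + 1),
    Finsupp.single m (((p i).coeff m) • Q i), fun s => ?_⟩
  rw [← Finsupp.sum_finset_sum_index (by intro a; simp) (by intro a b c; simp [smul_add]), h]
  refine Finset.sum_congr rfl fun i _ => ?_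
  rw [← Finsupp.sum_finset_sum_index (by intro a; simp) (by intro a b c; simp [smul_add]),
    Polynomial.eval_eq_sum_range, Finset.sum_smul]
  refine Finset.sum_congr rfl fun m _ => ?_
  rw [Finsupp.sum_single_index (by simp)]
  change _ = ((s : ℂ) ^ m) • (((p i).coeff m) • (Q i : Module.End ℂ (MvPolynomial V ℂ)))
  rw [smul_smul, mul_comm]

theorem PO.of_finsupp (P : ℕ →₀ weylS V) : PO fun s : ℕ => P.sum fun m Q =>
      ((s : ℂ) ^ m) • (Q : Module.End ℂ (MvPolynomial V ℂ)) :=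
  ⟨ℕ, P.support, fun m => Polynomial.X ^ m, fun m => P m, fun s => by
    unfold Finsupp.sum
    refine Finset.sum_congr rfl fun m _ => ?_
    simp⟩

theorem PO.const : PO fun _ : ℕ => (1 : Module.End ℂ (MvPolynomial V ℂ)) :=
  ⟨Unit, {()}, fun _ => 1, fun _ => 1, fun s => by simp⟩

/-- The functional equation with `k` factors. -/
theorem bf_iter (f : MvPolynomial V ℂ) (b : Polynomial ℂ) (hb : IsBFunction f b) (k : ℕ) :
    ∃ F : ℕ → Module.End ℂ (MvPolynomial V ℂ), PO F ∧ ∀ s : ℕ,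
      C (∏ i ∈ Finset.range k, b.eval ((s : ℂ) + i)) * f ^ s = F s (f ^ (s + k)) := by
  obtain ⟨P, hP⟩ := hb
  set F0 : ℕ → Module.End ℂ (MvPolynomial V ℂ) := fun s : ℕ => P.sum fun m Q =>
      ((s : ℂ) ^ m) • (Q : Module.End ℂ (MvPolynomial V ℂ)) with hF0
  have h0 : PO F0 := PO.of_finsupp P
  have h1 : ∀ s : ℕ, C (b.eval (s : ℂ)) * f ^ s = F0 s (f ^ (s + 1)) := by
    intro s
    rw [hP s, hF0]
    simp only [Finsupp.sum, LinearMap.sum_apply, LinearMap.smul_apply]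
  induction k with
  | zero =>
    refine ⟨fun _ => 1, PO.const, fun s => ?_⟩
    simp
  | succ k ih =>
    obtain ⟨F, hF, h2⟩ := ih
    refine ⟨fun s => F s * F0 (1 * s + k), hF.mul (h0.comp 1 k), fun s => ?_⟩
    have h3 := h1 (s + k)
    rw [Finset.prod_range_succ, C_mul]
    have h4 : (C (∏ i ∈ Finset.range k, b.eval ((s : ℂ) + i)) * C (b.eval ((s : ℂ) + k))) * f ^ s =
        b.eval ((s : ℂ) + k) • (C (∏ i ∈ Finset.range k, b.eval ((s : ℂ) + i)) * f ^ s) := by
      rw [smul_eq_C_mul]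
      ring
    rw [h4, h2, ← map_smul, smul_eq_C_mul]
    rw [Module.End.mul_apply, one_mul]
    congr 1
    push_cast at h3
    rw [h3, add_assoc]

/-- The functional equation of a power. -/
theorem bf_pow (f : MvPolynomial V ℂ) (b : Polynomial ℂ) (hb : IsBFunction f b) (N : ℕ) :
    IsBFunction (f ^ N) (∏ i ∈ Finset.range N,
      b.comp (Polynomial.C (N : ℂ) * Polynomial.X + Polynomial.C (i : ℂ))) := by
  obtain ⟨F, hF, h⟩ := bf_iter f b hb N
  obtain ⟨P, hP⟩ := (hF.comp N 0).finsupp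
  refine ⟨P, fun s => ?_⟩
  have h1 := h (N * s)
  have h2 := hP s
  simp only [add_zero] at h2
  rw [Polynomial.eval_prod]
  have h3 : (∏ i ∈ Finset.range N, (b.comp (Polynomial.C (N : ℂ) * Polynomial.X +
      Polynomial.C (i : ℂ))).eval (s : ℂ)) = ∏ i ∈ Finset.range N, b.eval (((N * s : ℕ) : ℂ) + i) := by
    refine Finset.prod_congr rfl fun i _ => ?_
    rw [Polynomial.eval_comp]
    simp
  rw [h3, ← pow_mul, h1, h2, ← pow_mul, mul_add, mul_one]
  simp only [Finsupp.sum, LinearMap.sum_apply, LinearMap.smul_apply]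

end pow

theorem cand_mul (d : ℕ) {n : ℕ} (a : Fin n → ℕ) (N : ℕ) (k j : Fin n) :
    cand d (fun i => N * a i) k j = cand d a k j / N := by
  unfold cand
  push_cast
  rw [← Finset.mul_sum, div_div, mul_comm (N : ℚ)]

theorem cand_le (d : ℕ) {n : ℕ} (a : Fin n → ℕ) (k j : Fin n) (hkj : k ≤ j) (hj : 0 < a j) :
    cand d a k j ≤ d * n + 1 ∧ 0 ≤ cand d a k j := by
  have h1 : (1 : ℚ) ≤ ∑ i ∈ Finset.Icc k j, (a i : ℚ) := by
    have h2 : (a j : ℚ) ≤ ∑ i ∈ Finset.Icc k j, (a i : ℚ) :=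
      Finset.single_le_sum (f := fun i => (a i : ℚ)) (fun i _ => by positivity)
        (Finset.mem_Icc.2 ⟨hkj, le_rfl⟩)
    have h3 : (1 : ℚ) ≤ (a j : ℚ) := by exact_mod_cast hj
    linarith
  have h4 : ((k : ℕ) : ℚ) ≤ ((j : ℕ) : ℚ) := by exact_mod_cast hkj
  have h5 : ((j : ℕ) : ℚ) ≤ n := by exact_mod_cast j.2.le
  have h6 : (0 : ℚ) ≤ ((k : ℕ) : ℚ) := by positivity
  have h7 : (0 : ℚ) ≤ (d : ℚ) := by positivity
  have h8 : (0 : ℚ) ≤ (d : ℚ) * (((j : ℕ) : ℚ) - ((k : ℕ) : ℚ)) := mul_nonneg h7 (by linarith)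
  unfold cand
  constructor
  · rw [div_le_iff₀ (by linarith)]
    have h9 : (d : ℚ) * (((j : ℕ) : ℚ) - ((k : ℕ) : ℚ)) ≤ d * n :=
      mul_le_mul_of_nonneg_left (by linarith) h7
    nlinarith
  · apply div_nonneg (by linarith) (by linarith)

theorem close_mul (d : ℕ) {n : ℕ} (a : Fin n → ℕ) : Close d (fun i => (d * n + 2) * a i) := by
  intro k j hkj hj k' j' hkj' hj'
  have hj2 : 0 < a j := by
    rcases Nat.eq_zero_or_pos (a j) with h | h
    · simp only [h, mul_zero, lt_irrefl] at hj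
    · exact h
  have hj2' : 0 < a j' := by
    rcases Nat.eq_zero_or_pos (a j') with h | h
    · simp only [h, mul_zero, lt_irrefl] at hj'
    · exact h
  have h1 := cand_le d a k j hkj hj2
  have h2 := cand_le d a k' j' hkj' hj2'
  rw [cand_mul, cand_mul]
  have h3 : (0 : ℚ) < ((d * n + 2 : ℕ) : ℚ) := by positivity
  have h4 : cand d a k j / ((d * n + 2 : ℕ) : ℚ) < 1 := by
    rw [div_lt_one h3]
    push_cast
    linarith [h1.1]
  have h5 : 0 ≤ cand d a k' j' / ((d * n + 2 : ℕ) : ℚ) := div_nonneg h2.2 h3.le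
  linarith

theorem ex_mul {n : ℕ} (a : Fin n → ℕ) (N m : ℕ) : ex (fun i => N * a i) m = N * ex a m := by
  unfold ex
  split_ifs
  · rfl
  · simp

theorem eval_shift (b : Polynomial ℂ) (N : ℕ) (hN : 0 < N) (c : ℝ) (A : ℕ) 
    (h : (∏ i ∈ Finset.range N, b.comp (Polynomial.C (N : ℂ) * Polynomial.X +
      Polynomial.C (i : ℂ))).eval (((c / ((N * A : ℕ) : ℝ) : ℝ)) : ℂ) = 0) :
    ∃ i : ℕ, b.eval ((((c / (A : ℝ) : ℝ)) : ℂ) + i) = 0 := by
  rw [Polynomial.eval_prod, Finset.prod_eq_zero_iff] at h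
  obtain ⟨i, _, hi⟩ := h
  refine ⟨i, ?_⟩
  rw [Polynomial.eval_comp] at hi
  rw [← hi]
  congr 1
  simp only [Polynomial.eval_add, Polynomial.eval_mul, Polynomial.eval_C, Polynomial.eval_X]
  congr 1
  push_cast
  have : (N : ℂ) ≠ 0 := by exact_mod_cast hN.ne'
  field_simp

/-- **Roots modulo the integers, nested minors**, without condition on the exponents. -/
theorem weak_minors {n : ℕ} (a : Fin n → ℕ) (b : Polynomial ℂ)
    (hb : IsBFunction (map (Int.castRingHom ℂ) (nested n a)) b) (r m : ℕ)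
    (hrm : r + m + 1 ≤ n) (hA : ex a (r + m + 1) ≠ 0) : ∃ i : ℕ,
    b.eval (((-((m : ℝ) + 1) / ((∑ i ∈ Finset.range (m + 1), ex a (r + i + 1) : ℕ) : ℝ) : ℝ) : ℂ) + i)
      = 0 := by
  set N : ℕ := 1 * n + 2 with hN
  have h1 : nested n (fun i => N * a i) = nested n a ^ N := by
    unfold nested
    rw [← Finset.prod_pow]
    exact Finset.prod_congr rfl fun k _ => by rw [← pow_mul, mul_comm]
  have h2 := bf_pow _ b hb N
  rw [← map_pow, ← h1] at h2
  have h3 := root_minors (fun i => N * a i) (close_mul 1 a) _ h2 r m hrm (by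
    rw [ex_mul]
    exact Nat.mul_ne_zero (by omega) hA)
  simp only [ex_mul] at h3
  rw [← Finset.mul_sum] at h3
  exact eval_shift b N (by omega) _ _ h3

/-- **Roots modulo the integers, nested Pfaffians**, without condition on the exponents. -/
theorem weak_npf {n : ℕ} (a : Fin n → ℕ) (b : Polynomial ℂ)
    (hb : IsBFunction (map (Int.castRingHom ℂ) (npf n a)) b) (r m : ℕ)
    (hrm : r + m + 1 ≤ n) (hA : ex a (r + m + 1) ≠ 0) : ∃ i : ℕ,
    b.eval (((-(2 * (m : ℝ) + 1) / ((∑ i ∈ Finset.range (m + 1), ex a (r + i + 1) : ℕ) : ℝ) : ℝ) : ℂ)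
      + i) = 0 := by
  set N : ℕ := 2 * n + 2 with hN
  have h1 : npf n (fun i => N * a i) = npf n a ^ N := by
    unfold npf
    rw [← Finset.prod_pow]
    refine Finset.prod_congr rfl fun k _ => ?_
    generalize Pool.Agent.K6.H33.PF.lpf (X : _ → MvPolynomial (Pool.Agent.K6.H33.PF.Pr (2 * n)) ℤ) k = F
    rw [← pow_mul, mul_comm (a k) N]
  have h2 := bf_pow _ b hb N
  rw [← map_pow, ← h1] at h2
  have h3 := root_npf (fun i => N * a i) (close_mul 2 a) _ h2 r m hrm (by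
    rw [ex_mul]
    exact Nat.mul_ne_zero (by omega) hA)
  simp only [ex_mul] at h3
  rw [← Finset.mul_sum] at h3
  exact eval_shift b N (by omega) _ _ h3

end Pool.Agent.K6.H33.PT
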