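import Pool.Agent.K6.H33.PT.AsmW
import Pool.Agent.K6.H33.PF.PAd

set_option autoImplicit false
set_option linter.unusedSectionVars false

/-! # Roots modulo the integers for all exponents, and roots under the condition `Close` -/

namespace Pool.Agent.K6.H33.PT

open MeasureTheory Set Pool.Agent.W427.SMC Pool.Agent.TH192.PA Pool.Agent.K6.H33.NM
  Pool.Agent.K6.H33.PF
open scoped ENNReal NNReal

theorem both_minors {n : ℕ} (a : Fin n → ℕ) (b : Polynomial ℂ)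
    (hb : Pool.Agent.H628R4.TP.IsBFunction (MvPolynomial.map (Int.castRingHom ℂ) (nested n a)) b)
    (r m : ℕ) (hrm : r + m + 1 ≤ n) (hA : ex a (r + m + 1) ≠ 0) : ∃ i : ℕ,
    b.eval (((-((m : ℝ) + 1) / ((∑ i ∈ Finset.range (m + 1), ex a (r + i + 1) : ℕ) : ℝ) : ℝ) : ℂ) + i)
      = 0 ∧ (Close 1 a → i = 0) := by
  by_cases h : Close 1 a
  · refine ⟨0, ?_, fun _ => rfl⟩
    rw [Nat.cast_zero, add_zero]
    exact root_minors a h b hb r m hrm hA
  · obtain ⟨i, hi⟩ := weak_minors a b hb r m hrm hA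
    exact ⟨i, hi, fun h' => absurd h' h⟩

theorem both_npf {n : ℕ} (a : Fin n → ℕ) (b : Polynomial ℂ)
    (hb : Pool.Agent.H628R4.TP.IsBFunction (MvPolynomial.map (Int.castRingHom ℂ) (npf n a)) b)
    (r m : ℕ) (hrm : r + m + 1 ≤ n) (hA : ex a (r + m + 1) ≠ 0) : ∃ i : ℕ,
    b.eval (((-(2 * (m : ℝ) + 1) / ((∑ i ∈ Finset.range (m + 1), ex a (r + i + 1) : ℕ) : ℝ) : ℝ) : ℂ)
      + i) = 0 ∧ (Close 2 a → i = 0) := by
  by_cases h : Close 2 a
  · refine ⟨0, ?_, fun _ => rfl⟩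
    rw [Nat.cast_zero, add_zero]
    exact root_npf a h b hb r m hrm hA
  · obtain ⟨i, hi⟩ := weak_npf a b hb r m hrm hA
    exact ⟨i, hi, fun h' => absurd h' h⟩

theorem both_DQ (p : ℕ) [Fact p.Prime] {n : ℕ} (a : Fin n → ℕ) (b : Polynomial ℂ)
    (hb : Pool.Agent.H628R4.TP.IsBFunction (MvPolynomial.map (Int.castRingHom ℂ) (nested n a)) b)
    (T : ℂ) (hT : (DQ p n (ex a)).eval T = 0) :
    ∃ i : ℕ, b.eval (((-Real.log ‖T‖ / Real.log p : ℝ) : ℂ) + i) = 0 ∧ (Close 1 a → i = 0) := by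
  obtain ⟨r, m, h1, h2, h3⟩ := DQ_root p T n (ex a) hT
  have hA : 0 < ∑ i ∈ Finset.range (m + 1), ex a (r + i + 1) := by
    rw [Finset.sum_range_succ]
    omega
  rw [log_root p T _ m hA h3]
  exact both_minors a b hb r m h1 h2

theorem both_SDQ (p : ℕ) [Fact p.Prime] {n : ℕ} (a : Fin n → ℕ) (b : Polynomial ℂ)
    (hb : Pool.Agent.H628R4.TP.IsBFunction (MvPolynomial.map (Int.castRingHom ℂ) (npf n a)) b)
    (T : ℂ) (hT : (SDQ p n (ex a)).eval T = 0) :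
    ∃ i : ℕ, b.eval (((-Real.log ‖T‖ / Real.log p : ℝ) : ℂ) + i) = 0 ∧ (Close 2 a → i = 0) := by
  obtain ⟨r, m, h1, h2, h3⟩ := SDQ_root p T n (ex a) hT
  have hA : 0 < ∑ i ∈ Finset.range (m + 1), ex a (r + i + 1) := by
    rw [Finset.sum_range_succ]
    omega
  rw [log_root p T _ (2 * m) hA h3]
  have h4 := both_npf a b hb r m h1 h2
  push_cast at h4 ⊢
  exact h4

/-- **The zeta function, nested minors.** -/
theorem igusa_minors' (p : ℕ) [Fact p.Prime] {n : ℕ} (a : Fin n → ℕ) (Z : ℂ → ℂ)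
    (hZ : MeromorphicOn Z Set.univ)
    (hI : ∀ s : ℂ, 0 < s.re → Z s = igusaZeta p (nested n a) s)
    (s₀ : ℂ) (hs₀ : meromorphicOrderAt Z s₀ < 0) (b : Polynomial ℂ)
    (hb : Pool.Agent.H628R4.TP.IsBFunction (MvPolynomial.map (Int.castRingHom ℂ) (nested n a)) b) :
    ∃ i : ℕ, b.eval ((s₀.re : ℂ) + i) = 0 ∧ (Close 1 a → i = 0) := by
  have hD : DQ p n (ex a) ≠ 0 := by
    intro h
    apply DQ_zero p n (ex a)
    rw [h]; simp
  have h1 := mero_bound p (DQ p n (ex a)) (NQ p n (ex a)) hD Z hZ (fun s hs => by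
    rw [hI s (by simpa using hs), igusaZeta_eq, pw_real]
    exact zeta_poly p a s hs.le) s₀
  have h2 : (DQ p n (ex a)).eval (pw p s₀) = 0 := by
    by_contra hne
    have h3 : (DQ p n (ex a)).rootMultiplicity (pw p s₀) = 0 := Polynomial.rootMultiplicity_eq_zero hne
    rw [h3] at h1
    simp only [Nat.cast_zero, neg_zero] at h1
    exact absurd h1 (not_le.2 hs₀)
  have h4 := both_DQ p a b hb _ h2
  rw [pw_norm] at h4
  exact h4

/-- **The zeta function, nested Pfaffians.** -/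
theorem igusa_npf' (p : ℕ) [Fact p.Prime] {n : ℕ} (a : Fin n → ℕ) (Z : ℂ → ℂ)
    (hZ : MeromorphicOn Z Set.univ)
    (hI : ∀ s : ℂ, 0 < s.re → Z s = igusaZeta p (npf n a) s)
    (s₀ : ℂ) (hs₀ : meromorphicOrderAt Z s₀ < 0) (b : Polynomial ℂ)
    (hb : Pool.Agent.H628R4.TP.IsBFunction (MvPolynomial.map (Int.castRingHom ℂ) (npf n a)) b) :
    ∃ i : ℕ, b.eval ((s₀.re : ℂ) + i) = 0 ∧ (Close 2 a → i = 0) := by
  have hD : SDQ p n (ex a) ≠ 0 := by
    intro h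
    apply SDQ_zero p n (ex a)
    rw [h]; simp
  have h1 := mero_bound p (SDQ p n (ex a)) (SNQ p n (ex a)) hD Z hZ (fun s hs => by
    rw [hI s (by simpa using hs), igusaZeta_eq, pw_real]
    exact zeta_npf p a s hs.le) s₀
  have h2 : (SDQ p n (ex a)).eval (pw p s₀) = 0 := by
    by_contra hne
    have h3 : (SDQ p n (ex a)).rootMultiplicity (pw p s₀) = 0 := Polynomial.rootMultiplicity_eq_zero hne
    rw [h3] at h1
    simp only [Nat.cast_zero, neg_zero] at h1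
    exact absurd h1 (not_le.2 hs₀)
  have h4 := both_SDQ p a b hb _ h2
  rw [pw_norm] at h4
  exact h4

/-- **The Poincare series, nested minors.** -/
theorem poincare_minors' (p : ℕ) [Fact p.Prime] {n : ℕ} (a : Fin n → ℕ) :
    ∃ Φ : RatFunc ℂ,
      ((Φ.denom : Polynomial ℂ) : PowerSeries ℂ) * poincare p (nested n a) =
        ((Φ.num : Polynomial ℂ) : PowerSeries ℂ) ∧
      ∀ T₀ : ℂ, Φ.denom.eval T₀ = 0 → ∀ b : Polynomial ℂ,
        Pool.Agent.H628R4.TP.IsBFunction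
          (MvPolynomial.map (Int.castRingHom ℂ) (nested n a)) b →
        ∃ i : ℕ, b.eval (((-Real.log ‖T₀‖ / Real.log p : ℝ) : ℂ) + i) = 0 ∧ (Close 1 a → i = 0) := by
  have hD : DQ p n (ex a) ≠ 0 := by
    intro h
    apply DQ_zero p n (ex a)
    rw [h]; simp
  obtain ⟨Φ, h1, -, h2⟩ := poincare_of (p := p) (f := nested n a) (DQ p n (ex a)) (NQ p n (ex a)) hD
    (fun s hs => zeta_poly p a s hs)
  refine ⟨Φ, h1, fun T₀ hT b hb => both_DQ p a b hb T₀ ?_⟩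
  by_contra hne
  have h3 := h2 T₀
  rw [Polynomial.rootMultiplicity_eq_zero hne] at h3
  have h4 : 0 < Φ.denom.rootMultiplicity T₀ :=
    (Polynomial.rootMultiplicity_pos Φ.denom_ne_zero).2 hT
  omega

/-- **The Poincare series, nested Pfaffians.** -/
theorem poincare_npf' (p : ℕ) [Fact p.Prime] {n : ℕ} (a : Fin n → ℕ) :
    ∃ Φ : RatFunc ℂ,
      ((Φ.denom : Polynomial ℂ) : PowerSeries ℂ) * poincare p (npf n a) =
        ((Φ.num : Polynomial ℂ) : PowerSeries ℂ) ∧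
      ∀ T₀ : ℂ, Φ.denom.eval T₀ = 0 → ∀ b : Polynomial ℂ,
        Pool.Agent.H628R4.TP.IsBFunction
          (MvPolynomial.map (Int.castRingHom ℂ) (npf n a)) b →
        ∃ i : ℕ, b.eval (((-Real.log ‖T₀‖ / Real.log p : ℝ) : ℂ) + i) = 0 ∧ (Close 2 a → i = 0) := by
  have hD : SDQ p n (ex a) ≠ 0 := by
    intro h
    apply SDQ_zero p n (ex a)
    rw [h]; simp
  obtain ⟨Φ, h1, -, h2⟩ := poincare_of (p := p) (f := npf n a) (SDQ p n (ex a)) (SNQ p n (ex a)) hD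
    (fun s hs => zeta_npf p a s hs)
  refine ⟨Φ, h1, fun T₀ hT b hb => both_SDQ p a b hb T₀ ?_⟩
  by_contra hne
  have h3 := h2 T₀
  rw [Polynomial.rootMultiplicity_eq_zero hne] at h3
  have h4 : 0 < Φ.denom.rootMultiplicity T₀ :=
    (Polynomial.rootMultiplicity_pos Φ.denom_ne_zero).2 hT
  omega

end Pool.Agent.K6.H33.PT
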